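import Pool.Agent.Lib.WhtLI.SubW
import Pool.Agent.Lib.TwLI.VPot
import Pool.Agent.Lib.TwLI.VInd

/-!
# ThmW : relative sectional curvature with heights, infinite systems

(helper62, problem MP_cf50d6_gt; the passage to the limit as in `Lib/InjLI/Lim.lean` by helper18 and the seats of inj)
-/

set_option autoImplicit false

set_option linter.unusedSectionVars false

open scoped Classical

namespace Pool.Agent.WhtLI

open Pool.Agent.LIA

universe u v w'

/-- finitely many relations suffice for a finite graph -/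
private theorem lim_fin {V X Z : Type*} (Γ : LG V X) (rel : Z → List (X × Bool))
    (h : Γ.Acy rel) : ∃ Z₀ : Finset Z, Γ.Acy (fun z : ↥Z₀ => rel z.1) := by
  let N : Z → Submodule ℚ (↥Γ.F → ℚ) := fun z =>
    { carrier := {c | ∀ v, Γ.Walk v (rel z) v → Γ.trSum (Γ.ext0 c) v (rel z) = 0}
      add_mem' := by
        intro c d hc hd v hv
        rw [LG.ext0_add, LG.trSum_add, hc v hv, hd v hv, add_zero]
      zero_mem' := by
        intro v hv
        have h : Γ.ext0 (0 : ↥Γ.F → ℚ) = fun e => 0 * Γ.ext0 (0 : ↥Γ.F → ℚ) e := by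
          funext e
          by_cases he : e ∈ Γ.F
          · simp [LG.ext0, he]
          · simp [LG.ext0, he]
        rw [h, LG.trSum_smul, zero_mul]
      smul_mem' := by
        intro r c hc v hv
        rw [LG.ext0_smul, LG.trSum_smul, hc v hv, mul_zero] }
  have hN : ∀ z c, c ∈ N z ↔ ∀ v, Γ.Walk v (rel z) v → Γ.trSum (Γ.ext0 c) v (rel z) = 0 :=
    fun z c => Iff.rfl
  let d : Finset Z → ℕ := fun Y => Module.finrank ℚ ↥(Y.inf N)
  obtain ⟨Z₀, hZ₀⟩ : ∃ Z₀, ∀ Y, d Z₀ ≤ d Y :=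
    ⟨Function.argmin d, fun Y => Function.argmin_le d Y⟩
  have hle : ∀ z, Z₀.inf N ≤ N z := by
    intro z
    have h1 : (insert z Z₀).inf N ≤ Z₀.inf N := by
      rw [Finset.inf_insert]
      exact inf_le_right
    have h2 : (insert z Z₀).inf N = Z₀.inf N :=
      Submodule.eq_of_le_of_finrank_le h1 (hZ₀ (insert z Z₀))
    rw [← h2, Finset.inf_insert]
    exact inf_le_left
  have hext : ∀ (c : V × X × V → ℚ) (v : V) (L : List (X × Bool)),
      Γ.trSum (Γ.ext0 fun e => c e.1) v L = Γ.trSum c v L := by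
    intro c v L
    refine LG.trSum_congr Γ _ _ Set.univ (fun _ _ _ _ _ => Set.mem_univ _) ?_ v L (Set.mem_univ _)
    intro u s v h _
    exact dif_pos h
  refine ⟨Z₀, fun c hc => h c fun v z hw => ?_⟩
  have h1 : (fun e : ↥Γ.F => c e.1) ∈ Z₀.inf N := by
    rw [Submodule.mem_finsetInf]
    intro y hy
    rw [hN]
    intro v' hv'
    rw [hext]
    exact hc v' ⟨y, hy⟩ hv'
  have h2 := (hN z _).1 (hle z h1) v hw
  rwa [hext] at h2

private theorem lim_mk_toWord {S : Type*} (inst : DecidableEq S) (x : FreeGroup S) :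
    FreeGroup.mk (@FreeGroup.toWord S inst x) = x := @FreeGroup.mk_toWord S inst x

/-- finitely many elements which generate a subgroup without characters die in all locally indicable
groups which satisfy finitely many relations -/
private theorem lim_core {X : Type u} {Z G : Type*} [Group G] (π : FreeGroup X →* G)
    (ρ : Z → FreeGroup X) (hker : π.ker ≤ Subgroup.normalClosure (Set.range ρ))
    {n : ℕ} (k : Fin n → FreeGroup X)
    (hno : ∀ f : Subgroup.closure (Set.range fun j => π (k j)) →* Multiplicative ℚ,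
      ∀ h, f h = 1) :
    ∃ Z₀ : Finset Z, ∀ (Q : Type v) [Group Q], LocallyIndicable Q → ∀ g : X → Q,
      (∀ z ∈ Z₀, FreeGroup.lift g (ρ z) = 1) → ∀ j, FreeGroup.lift g (k j) = 1 := by
  obtain ⟨W, _, Γ, o, hc, hAcy, hw⟩ := exists_graph_acy π (fun z => (ρ z).toWord) (by
    have h1 : (fun z => FreeGroup.mk (ρ z).toWord) = ρ := funext fun z => lim_mk_toWord _ _
    rw [h1]
    exact hker) k hno
  obtain ⟨Z₀, hZ₀⟩ := lim_fin Γ _ hAcy
  refine ⟨Z₀, fun Q _ hQ g hg j => ?_⟩
  obtain ⟨h, hh⟩ := LG.acy_pot hQ Γ hZ₀ (fun e => g e.2.1) (by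
    intro v z hvz
    have h1 := wv_label g hvz
    rw [lim_mk_toWord, hg z.1 z.2] at h1
    exact h1)
  have h2 := LG.wv_pot hh (wv_label g (hw j))
  rw [lim_mk_toWord] at h2
  exact left_eq_mul.1 h2

/-- the value of a word depends only on finitely many letters -/
private theorem lim_supp {X : Type*} {G : Type*} [Group G] (w : FreeGroup X) :
    ∃ F : Finset X, ∀ f g : FreeGroup X →* G,
      (∀ x ∈ F, f (FreeGroup.of x) = g (FreeGroup.of x)) → f w = g w := by
  refine FreeGroup.induction_on w ?_ ?_ ?_ ?_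
  · exact ⟨∅, fun f g _ => by rw [map_one, map_one]⟩
  · exact fun x => ⟨{x}, fun f g h => h x (Finset.mem_singleton_self _)⟩
  · intro x _
    refine ⟨{x}, fun f g h => ?_⟩
    have h1 := h x (Finset.mem_singleton_self _)
    rw [map_inv, map_inv]
    exact congrArg (fun y => y⁻¹) h1
  · intro x y hx hy
    obtain ⟨F, hF⟩ := hx
    obtain ⟨F', hF'⟩ := hy
    refine ⟨F ∪ F', fun f g h => ?_⟩
    rw [map_mul, map_mul, hF f g fun x hx => h x (Finset.mem_union_left _ hx),
      hF' f g fun x hx => h x (Finset.mem_union_right _ hx)]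

section

variable {I T E : Type} {H : I → Type u} [∀ b, Group (H b)] {m : E → ℕ}
  (a : ∀ e, Fin (m e + 1) → Ltr H T × Bool)

/-- the limit -/
theorem lim_T (h : ∀ (F : Finset (Ltr H T)) (E' : Finset E), ∃ (G' : Type u) (_ : Group G')
      (ψ : ∀ b, H b →* G') (τ : T → G') (π' : G' →* GT a), LocallyIndicable G' ∧
      (∀ e ∈ E', wval ψ τ (a e) = 1) ∧
      (∀ b x, Sum.inl ⟨b, x⟩ ∈ F → Function.Injective (ψ b)) ∧
      ∀ x ∈ F, π' (ev ψ τ x) = ev (gH a) (gT a) x) :
    LocallyIndicable (GT a) ∧ ∀ b, Function.Injective (gH a b) := by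
  set π : FreeGroup (Ltr H T) →* GT a := FreeGroup.lift (ev (gH a) (gT a)) with hπ
  have hsurj : Function.Surjective π := gt_surj a
  have hker : π.ker ≤ Subgroup.normalClosure (Set.range (lrel a)) := gt_ker a
  have hmain : ∀ {n : ℕ} (k : Fin n → FreeGroup (Ltr H T)) (F₀ : Finset (Ltr H T)),
      (∀ f : Subgroup.closure (Set.range fun j => π (k j)) →* Multiplicative ℚ,
        ∀ h, f h = 1) →
      ∃ (G' : Type u) (_ : Group G') (ψ : ∀ b, H b →* G') (τ : T → G'),
        (∀ b x, Sum.inl ⟨b, x⟩ ∈ F₀ → Function.Injective (ψ b)) ∧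
        (∀ j, FreeGroup.lift (ev ψ τ) (k j) = 1) ∧
        ∀ j, π (k j) = 1 := by
    intro n k F₀ hno
    obtain ⟨Z₀, hZ₀⟩ := lim_core.{u, u} π (lrel a) hker k hno
    choose F hF using fun j => lim_supp (G := GT a) (k j)
    obtain ⟨G', hG', ψ, τ, π', hLI, hrel, hinj, hπ'⟩ := h (F₀ ∪ Finset.univ.biUnion F)
      (Z₀.preimage Sum.inr Sum.inr_injective.injOn)
    have hg : ∀ z ∈ Z₀, FreeGroup.lift (ev ψ τ) (lrel a z) = 1 := by
      rintro (⟨b, y, y'⟩ | e) hz
      · change FreeGroup.lift (ev ψ τ) (FreeGroup.of (Sum.inl ⟨b, y⟩) *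
          FreeGroup.of (Sum.inl ⟨b, y'⟩) * (FreeGroup.of (Sum.inl ⟨b, y * y'⟩))⁻¹) = 1
        rw [map_mul, map_mul, map_inv, FreeGroup.lift_apply_of, FreeGroup.lift_apply_of,
          FreeGroup.lift_apply_of]
        change ψ b y * ψ b y' * (ψ b (y * y'))⁻¹ = 1
        rw [map_mul, mul_inv_cancel]
      · have h1 := hrel e (Finset.mem_preimage.2 hz)
        change FreeGroup.lift (ev ψ τ) (FreeGroup.mk (List.ofFn (a e))) = 1
        rw [wval_lift]
        exact h1
    have hk := hZ₀ G' hLI (ev ψ τ) hg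
    refine ⟨G', hG', ψ, τ, fun b x hb => hinj b x (Finset.mem_union_left _ hb), hk,
      fun j => ?_⟩
    have h1 : π (k j) = (π'.comp (FreeGroup.lift (ev ψ τ))) (k j) := by
      refine hF j _ _ fun x hx => ?_
      rw [MonoidHom.comp_apply, FreeGroup.lift_apply_of, FreeGroup.lift_apply_of]
      exact (hπ' x (Finset.mem_union_right _
        (Finset.mem_biUnion.2 ⟨j, Finset.mem_univ _, hx⟩))).symm
    rw [h1, MonoidHom.comp_apply, hk j, map_one]
  constructor
  · intro K hK hne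
    by_contra hno
    obtain ⟨T', hT⟩ := id hK
    let e := T'.equivFin
    choose k hk using fun j : Fin T'.card => hsurj ((e.symm j : GT a))
    have hy : Subgroup.closure (Set.range fun j => π (k j)) = K := by
      rw [← hT]
      congr 1
      ext x
      constructor
      · rintro ⟨j, rfl⟩
        change π (k j) ∈ (T' : Set (GT a))
        rw [hk]
        exact (e.symm j).2
      · intro hx
        refine ⟨e ⟨x, hx⟩, ?_⟩
        change π (k (e ⟨x, hx⟩)) = x
        rw [hk]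
        simp
    have hKfg : Group.FG K := by
      rw [Group.fg_iff_subgroup_fg]
      exact hK
    obtain ⟨G', _, ψ, τ, _, _, h1⟩ := hmain k ∅ (by
      rw [hy]
      exact fun f => hom_rat_trivial hKfg hno f)
    apply hne
    rw [← hy, Subgroup.closure_eq_bot_iff]
    rintro _ ⟨j, rfl⟩
    exact h1 j
  · intro b
    rw [injective_iff_map_eq_one]
    intro x hx
    have h0 : π (FreeGroup.of (Sum.inl ⟨b, x⟩)) = 1 := by
      rw [hπ, FreeGroup.lift_apply_of]
      exact hx
    obtain ⟨G', _, ψ, τ, hinj, h1, _⟩ := hmain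
      (fun _ : Fin 1 => FreeGroup.of (Sum.inl ⟨b, x⟩)) {Sum.inl ⟨b, x⟩} (by
      intro f y
      have h2 : y = 1 := by
        have h3 : Subgroup.closure
            (Set.range fun _ : Fin 1 => π (FreeGroup.of (Sum.inl ⟨b, x⟩))) = ⊥ := by
          rw [Subgroup.closure_eq_bot_iff]
          rintro _ ⟨_, rfl⟩
          exact h0
        apply Subtype.ext
        have h4 : (y : GT a) ∈ (⊥ : Subgroup (GT a)) := by
          rw [← h3]
          exact y.2
        exact Subgroup.mem_bot.1 h4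
      rw [h2, map_one])
    have h2 := h1 0
    rw [FreeGroup.lift_apply_of] at h2
    exact (injective_iff_map_eq_one (ψ b)).1 (hinj b x (Finset.mem_singleton_self _)) x h2

/-- relative sectional curvature with heights -/
theorem thmW (alt : ∀ e c, lec (linv (a e c)) ≠ lec (a e (c + 1)))
    (hH : ∀ b, LocallyIndicable (H b)) {L : Type w'} [Group L] (hL : LocallyIndicable L)
    (χ : ∀ b, H b →* L) (σ : T → L) (hχ : ∀ e, wval χ σ (a e) = 1)
    (hCv : ∀ (F : Finset E) (S : Finset L), ∃ (O : Type) (_ : Fintype O)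
      (s : O → (Σ b, H b) → L → Bool) (w : (Σ e : E, Fin (m e + 1)) → L → ℝ)
      (α : I → O → L → ℝ) (lam : Ltr H T → L → ℝ), CrW a alt χ σ F S s w α lam) :
    LocallyIndicable (GT a) ∧ ∀ b, Function.Injective (gH a b) := by
  refine lim_T a fun F E' => ?_
  let A : Finset (Ltr H T) := F ∪ E'.biUnion (fun e => Finset.univ.image fun c => (a e c).1)
  let I₀ : Finset I := A.biUnion fun x => match x with
    | Sum.inl y => {y.1}
    | Sum.inr _ => ∅
  let T₀ : Finset T := A.biUnion fun x => match x with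
    | Sum.inl _ => ∅
    | Sum.inr t => {t}
  have hA : ∀ x ∈ A, InL I₀ T₀ x := by
    intro x hx
    rcases x with y | t
    · exact Finset.mem_biUnion.2 ⟨_, hx, Finset.mem_singleton_self _⟩
    · exact Finset.mem_biUnion.2 ⟨_, hx, Finset.mem_singleton_self _⟩
  have hin : ∀ e ∈ E', ∀ c, InL I₀ T₀ (a e c).1 := by
    intro e he c
    exact hA _ (Finset.mem_union_right _
      (Finset.mem_biUnion.2 ⟨e, he, Finset.mem_image.2 ⟨c, Finset.mem_univ _, rfl⟩⟩))
  have hval : ∀ {G : Type u} [Group G] (φ : ∀ b, H b →* G) (τ : T → G) (e : ↥E'),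
      wval (fun b : ↥I₀ => φ b.1) (fun t : ↥T₀ => τ t.1) (rw0 a I₀ T₀ E' hin e) =
        wval φ τ (a e.1) := by
    intro G _ φ τ e
    unfold wval
    congr 2
    funext c
    rw [ev_ul]
    have h3 := uL_rw0 a I₀ T₀ E' hin e c
    have h4 : ul I₀ T₀ (rw0 a I₀ T₀ E' hin e c).1 = (a e.1 c).1 := congrArg Prod.fst h3
    rw [h4]
    rfl
  have hB := colH (rw0 a I₀ T₀ E' hin) (rw0_alt a alt I₀ T₀ E' hin) (fun b : ↥I₀ => hH b.1) hL
    (fun b : ↥I₀ => χ b.1) (fun t : ↥T₀ => σ t.1) (fun e => by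
      unfold wval
      have h1 := hχ e.1
      unfold wval at h1
      rw [← h1]
      congr 2
      funext c
      rw [ev_ul]
      have h3 := uL_rw0 a I₀ T₀ E' hin e c
      have h4 : ul I₀ T₀ (rw0 a I₀ T₀ E' hin e c).1 = (a e.1 c).1 := congrArg Prod.fst h3
      rw [h4]
      rfl)
    (fun S => by
      obtain ⟨O, hO, s, w, α, lam, h⟩ := hCv E' S
      exact ⟨Option O, inferInstance, _, _, _, _, cvH_of _ _ _ _
        (crW_res a alt I₀ T₀ E' hin χ σ h)⟩)
  let ψ : ∀ b, H b →* GT (rw0 a I₀ T₀ E' hin) := fun b =>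
    if h : b ∈ I₀ then gH (rw0 a I₀ T₀ E' hin) ⟨b, h⟩ else 1
  let τ : T → GT (rw0 a I₀ T₀ E' hin) := fun t =>
    if h : t ∈ T₀ then gT (rw0 a I₀ T₀ E' hin) ⟨t, h⟩ else 1
  have hψ : ∀ b (h : b ∈ I₀), ψ b = gH (rw0 a I₀ T₀ E' hin) ⟨b, h⟩ := fun b h => dif_pos h
  have hτ : ∀ t (h : t ∈ T₀), τ t = gT (rw0 a I₀ T₀ E' hin) ⟨t, h⟩ := fun t h => dif_pos h
  have hψ' : (fun b : ↥I₀ => ψ b.1) = gH (rw0 a I₀ T₀ E' hin) := funext fun b => hψ b.1 b.2
  have hτ' : (fun t : ↥T₀ => τ t.1) = gT (rw0 a I₀ T₀ E' hin) := funext fun t => hτ t.1 t.2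
  obtain ⟨π', hπ1, hπ2⟩ := gt_univ (rw0 a I₀ T₀ E' hin) (fun b : ↥I₀ => gH a b.1)
    (fun t : ↥T₀ => gT a t.1) (fun e => by
      rw [hval (gH a) (gT a) e]
      exact gt_rel a e.1)
  refine ⟨GT (rw0 a I₀ T₀ E' hin), inferInstance, ψ, τ, π', hB.1, ?_, ?_, ?_⟩
  · intro e he
    rw [← hval ψ τ ⟨e, he⟩, hψ', hτ']
    exact gt_rel (rw0 a I₀ T₀ E' hin) ⟨e, he⟩
  · intro b x hb
    have h1 : b ∈ I₀ := hA _ (Finset.mem_union_left _ hb)
    rw [hψ b h1]
    exact hB.2 ⟨b, h1⟩
  · intro x hx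
    have h1 := hA x (Finset.mem_union_left _ hx)
    rcases x with y | t
    · change π' (ψ y.1 y.2) = gH a y.1 y.2
      have h2 : y.1 ∈ I₀ := h1
      rw [hψ y.1 h2]
      exact hπ1 ⟨y.1, h2⟩ y.2
    · change π' (τ t) = gT a t
      have h2 : t ∈ T₀ := h1
      rw [hτ t h2]
      exact hπ2 ⟨t, h2⟩

end

end Pool.Agent.WhtLI
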