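import Pool.Agent.Lib.WhtLI.Defs

/-!
# Grp : quotients of free products of groups and a free group

(helper62, problem MP_cf50d6_gt)
-/

set_option autoImplicit false

open scoped Classical

namespace Pool.Agent.WhtLI

open Pool.Agent.LIA

universe u v

/-- the letters: elements of the groups `H b` and free letters -/
abbrev Ltr {I : Type} (H : I → Type u) (T : Type) : Type u := (Σ b, H b) ⊕ T

section

variable {I T : Type} {H : I → Type u} [∀ b, Group (H b)]

/-- the value of a letter -/
def ev {G : Type*} [Group G] (θ : ∀ b, H b →* G) (τ : T → G) : Ltr H T → G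
  | Sum.inl y => θ y.1 y.2
  | Sum.inr t => τ t

/-- the value of a word -/
def wval {G : Type*} [Group G] (θ : ∀ b, H b →* G) (τ : T → G) {n : ℕ}
    (a : Fin n → Ltr H T × Bool) : G := (List.ofFn fun c => sg (ev θ τ (a c).1) (a c).2).prod

theorem wval_lift {G : Type*} [Group G] (θ : ∀ b, H b →* G) (τ : T → G) {n : ℕ}
    (a : Fin n → Ltr H T × Bool) :
    FreeGroup.lift (ev θ τ) (FreeGroup.mk (List.ofFn a)) = wval θ τ a := by
  unfold wval
  rw [FreeGroup.lift_mk, List.map_ofFn]
  congr 2
  funext c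
  simp only [Function.comp_apply, sg]
  cases (a c).2
  · simp
  · simp

theorem map_wval {G K : Type*} [Group G] [Group K] (Φ : G →* K) (θ : ∀ b, H b →* G) (τ : T → G)
    {n : ℕ} (a : Fin n → Ltr H T × Bool) :
    Φ (wval θ τ a) = wval (fun b => Φ.comp (θ b)) (fun t => Φ (τ t)) a := by
  unfold wval
  rw [map_list_prod, List.map_ofFn]
  congr 2
  funext c
  simp only [Function.comp_apply, sg]
  rcases (a c).1 with y | t
  · cases (a c).2
    · simp [ev]
    · simp [ev]
  · cases (a c).2
    · simp [ev]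
    · simp [ev]

/-- the free product of the groups `H b` and the free group with the basis `T` -/
abbrev FP {I : Type} (H : I → Type u) [∀ b, Group (H b)] (T : Type) : Type u :=
  Monoid.Coprod (Monoid.CoprodI H) (FreeGroup T)

/-- the canonical homomorphisms to the free product -/
def fpH (b : I) : H b →* FP H T := Monoid.Coprod.inl.comp Monoid.CoprodI.of

/-- the free letters in the free product -/
def fpT (t : T) : FP H T := Monoid.Coprod.inr (FreeGroup.of t)

end

section

variable {I T E : Type} {H : I → Type u} [∀ b, Group (H b)] {m : E → ℕ}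
  (a : ∀ e, Fin (m e + 1) → Ltr H T × Bool)

/-- the words as elements of the free product -/
def relT (e : E) : FP H T := wval fpH fpT (a e)

/-- the quotient of the free product by the words -/
abbrev GT : Type u := FP H T ⧸ Subgroup.normalClosure (Set.range (relT a))

/-- the canonical homomorphisms to the quotient -/
def gH (b : I) : H b →* GT a :=
  (QuotientGroup.mk' (Subgroup.normalClosure (Set.range (relT a)))).comp (fpH b)

/-- the free letters in the quotient -/
def gT (t : T) : GT a := QuotientGroup.mk' (Subgroup.normalClosure (Set.range (relT a))) (fpT t)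

theorem gt_rel (e : E) : wval (gH a) (gT a) (a e) = 1 := by
  have h1 := map_wval (QuotientGroup.mk' (Subgroup.normalClosure (Set.range (relT a)))) fpH fpT
    (a e)
  have h2 : QuotientGroup.mk' (Subgroup.normalClosure (Set.range (relT a))) (relT a e) = 1 :=
    (QuotientGroup.eq_one_iff _).2 (Subgroup.subset_normalClosure ⟨e, rfl⟩)
  exact h1.symm.trans h2

theorem gt_univ {K : Type*} [Group K] (φ : ∀ b, H b →* K) (σ : T → K)
    (h : ∀ e, wval φ σ (a e) = 1) :
    ∃ Φ : GT a →* K, (∀ b x, Φ (gH a b x) = φ b x) ∧ ∀ t, Φ (gT a t) = σ t := by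
  let Ψ : FP H T →* K := Monoid.Coprod.lift (Monoid.CoprodI.lift φ) (FreeGroup.lift σ)
  have h1 : ∀ b x, Ψ (fpH b x) = φ b x := by
    intro b x
    simp [Ψ, fpH]
  have h2 : ∀ t, Ψ (fpT t) = σ t := by
    intro t
    simp [Ψ, fpT]
  have hle : Subgroup.normalClosure (Set.range (relT a)) ≤ Ψ.ker := by
    apply Subgroup.normalClosure_le_normal
    rintro _ ⟨e, rfl⟩
    change Ψ (wval fpH fpT (a e)) = 1
    rw [map_wval]
    have h3 : (fun b => Ψ.comp (fpH b)) = φ := by
      funext b
      ext x
      exact h1 b x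
    have h4 : (fun t => Ψ (fpT t)) = σ := funext h2
    rw [h3, h4]
    exact h e
  refine ⟨QuotientGroup.lift _ Ψ hle, ?_, ?_⟩
  · intro b x
    exact h1 b x
  · intro t
    exact h2 t

theorem gt_surj : Function.Surjective (FreeGroup.lift (ev (gH a) (gT a))) := by
  intro x
  obtain ⟨y, rfl⟩ := QuotientGroup.mk'_surjective (Subgroup.normalClosure (Set.range (relT a))) x
  induction y using Monoid.Coprod.induction_on with
  | inl y =>
    induction y using Monoid.CoprodI.induction_on with
    | one => exact ⟨1, by rw [map_one, map_one, map_one]⟩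
    | of b m =>
      refine ⟨FreeGroup.of (Sum.inl ⟨b, m⟩), ?_⟩
      rw [FreeGroup.lift_apply_of]
      rfl
    | mul x y hx hy =>
      obtain ⟨x', hx⟩ := hx
      obtain ⟨y', hy⟩ := hy
      exact ⟨x' * y', by rw [map_mul, map_mul, map_mul, hx, hy]⟩
  | inr y =>
    have h1 : (QuotientGroup.mk' (Subgroup.normalClosure (Set.range (relT a)))).comp
        Monoid.Coprod.inr = (FreeGroup.lift (ev (gH a) (gT a))).comp
          (FreeGroup.map (Sum.inr : T → Ltr H T)) := by
      refine FreeGroup.ext_hom _ _ fun t => ?_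
      rw [MonoidHom.comp_apply, MonoidHom.comp_apply, FreeGroup.map.of, FreeGroup.lift_apply_of]
      rfl
    exact ⟨FreeGroup.map (Sum.inr : T → Ltr H T) y, (DFunLike.congr_fun h1 y).symm⟩
  | mul x y hx hy =>
    obtain ⟨x', hx⟩ := hx
    obtain ⟨y', hy⟩ := hy
    exact ⟨x' * y', by rw [map_mul, map_mul, hx, hy]⟩

/-- the relators in the free group on all letters -/
def lrel : (Σ b, H b × H b) ⊕ E → FreeGroup (Ltr H T)
  | Sum.inl z => FreeGroup.of (Sum.inl ⟨z.1, z.2.1⟩) * FreeGroup.of (Sum.inl ⟨z.1, z.2.2⟩) *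
      (FreeGroup.of (Sum.inl ⟨z.1, z.2.1 * z.2.2⟩))⁻¹
  | Sum.inr e => FreeGroup.mk (List.ofFn (a e))

theorem gt_ker : (FreeGroup.lift (ev (gH a) (gT a))).ker ≤
    Subgroup.normalClosure (Set.range (lrel a)) := by
  set N : Subgroup (FreeGroup (Ltr H T)) := Subgroup.normalClosure (Set.range (lrel a)) with hN
  let q : FreeGroup (Ltr H T) →* (FreeGroup (Ltr H T) ⧸ N) := QuotientGroup.mk' N
  have hq : ∀ x, q x = 1 ↔ x ∈ N := fun x => QuotientGroup.eq_one_iff x
  let φ : ∀ b, H b →* (FreeGroup (Ltr H T) ⧸ N) := fun b =>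
    MonoidHom.mk' (fun h => q (FreeGroup.of (Sum.inl ⟨b, h⟩))) (by
      intro h h'
      have h0 : lrel a (Sum.inl ⟨b, h, h'⟩) ∈ N := Subgroup.subset_normalClosure ⟨_, rfl⟩
      have h1 := (hq _).2 h0
      change q (FreeGroup.of (Sum.inl ⟨b, h⟩) * FreeGroup.of (Sum.inl ⟨b, h'⟩) *
        (FreeGroup.of (Sum.inl ⟨b, h * h'⟩))⁻¹) = 1 at h1
      rw [map_mul, map_mul, map_inv, mul_inv_eq_one] at h1
      exact h1.symm)
  let σ : T → (FreeGroup (Ltr H T) ⧸ N) := fun t => q (FreeGroup.of (Sum.inr t))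
  have h2 : FreeGroup.lift (ev φ σ) = q := by
    refine FreeGroup.ext_hom _ _ fun x => ?_
    rw [FreeGroup.lift_apply_of]
    rcases x with y | t
    · rfl
    · rfl
  have hφ : ∀ e, wval φ σ (a e) = 1 := by
    intro e
    have h0 : lrel a (Sum.inr e) ∈ N := Subgroup.subset_normalClosure ⟨_, rfl⟩
    rw [← wval_lift, h2]
    exact (hq _).2 h0
  obtain ⟨Φ, hΦ, hΦ'⟩ := gt_univ a φ σ hφ
  have hcomp : Φ.comp (FreeGroup.lift (ev (gH a) (gT a))) = q := by
    refine FreeGroup.ext_hom _ _ fun x => ?_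
    rw [MonoidHom.comp_apply, FreeGroup.lift_apply_of]
    rcases x with y | t
    · exact hΦ y.1 y.2
    · exact hΦ' t
  intro x hx
  rw [MonoidHom.mem_ker] at hx
  rw [← hq, ← hcomp, MonoidHom.comp_apply, hx, map_one]

end

end Pool.Agent.WhtLI
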