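import Pool.Agent.Lib.WhtLI.SplB

/-!
# SplA : the split graph is acyclic

(helper62, problem MP_cf50d6_gt; as in `Lib/InjLI` by helper18 and the seats of inj)

`c'` a cochain on the split graph with the two balance conditions; `c := P.pb p U c'` on `Γ`. The inner condition for `c`: `inner_spl`.
-/

set_option autoImplicit false

open scoped Classical

namespace Pool.Agent.WhtLI

open Pool.Agent.LIA

universe u v

namespace OW

variable {X : Type u} {I J E : Type} {W : Type*} (P : OW X I J E)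


theorem acyc_spl_zero {Γ : LG W X} {R : Set (FreeGroup X)} (hR : P.Mono R) (hA : P.Acyc R Γ)
    {p : W} {U : Finset J} (h0 : ∀ κ, P.At Γ p κ → ¬ P.Cr κ U) : P.Acyc R (P.spl Γ p U) := by
  intro c' hin hout
  obtain ⟨k, hk⟩ := hA (P.pb p U c') (P.inner_spl hR hin) (by
    intro e q hq
    have hn : ∀ i, q i = p → ¬ P.Cr ⟨e, i⟩ U := fun i hi => h0 _ ⟨q, hq, hi⟩
    rw [P.sum_lift c' hq hn]
    exact hout e _ (P.poly_lift hq hn))
  refine ⟨fun y => k (pr p y), fun y x z h => ?_⟩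
  obtain ⟨u, v, h1, rfl, rfl⟩ := P.mem_spl.1 h
  simp only [pr_mv]
  exact hk u x v h1

private theorem vl_lin {W X : Type*} (c d : W × X × W → ℚ) (r : ℚ) (p : W) (l : X × Bool)
    (q : W) : vl (fun y => c y + r * d y) p l q = vl c p l q + r * vl d p l q := by
  unfold vl
  split_ifs
  · rfl
  · ring

theorem acyc_spl_one {Γ : LG W X} {R : Set (FreeGroup X)} (hR : P.Mono R) (hA : P.Acyc R Γ)
    {p : W} {U : Finset J} {κ₀ : P.Cor} (h1 : P.At Γ p κ₀) (h2 : P.Cr κ₀ U)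
    (h3 : ∀ κ, P.At Γ p κ → P.Cr κ U → κ = κ₀) : P.Acyc R (P.spl Γ p U) := by
  intro c' hin hout
  obtain ⟨e₀, j₀⟩ := κ₀
  obtain ⟨q₀, hq₀, hp₀⟩ := h1
  have hcase : ∀ e q, P.Poly Γ e q → (∀ i, q i = p → ¬ P.Cr ⟨e, i⟩ U) ∨
      ∀ c : W × X × W → ℚ, ∑ i, vl c (q i) (P.a e i) (q (i + 1)) =
        ∑ i, vl c (q₀ i) (P.a e₀ i) (q₀ (i + 1)) := by
    intro e q hq
    by_cases h : ∃ i, q i = p ∧ P.Cr ⟨e, i⟩ U
    · obtain ⟨i, hi, hc⟩ := h
      have h4 := h3 ⟨e, i⟩ ⟨q, hq, hi⟩ hc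
      right
      cases h4
      have h5 : q = q₀ := P.poly_unique hq hq₀ (hi.trans hp₀.symm)
      subst h5
      intro c
      rfl
    · left
      intro i hi hc
      exact h ⟨i, hi, hc⟩
  obtain ⟨k, hk⟩ : ∃ k : Option W → ℚ, k = fun y => if y = none then 1 else 0 := ⟨_, rfl⟩
  obtain ⟨η, hη⟩ : ∃ η : W × X × W → ℚ, η = P.eta k p U := ⟨_, rfl⟩
  have hη0 : ∀ e q, P.Poly Γ e q → (∀ i, q i = p → ¬ P.Cr ⟨e, i⟩ U) →
      ∑ i, vl η (q i) (P.a e i) (q (i + 1)) = 0 := by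
    intro e q hq hn
    rw [hη, P.parts]
    apply Finset.sum_eq_zero
    intro i _
    rw [P.mv_eq (κ := ⟨e, i⟩) (hn i), sub_self]
  have hε : ∑ i, vl η (q₀ i) (P.a e₀ i) (q₀ (i + 1)) ≠ 0 := by
    rw [hη, P.parts, Finset.sum_eq_single j₀]
    · rw [hp₀]
      rcases P.mv_ne (p := p) h2 with ⟨h4, h5⟩ | ⟨h4, h5⟩
      · rw [h4, h5, hk]
        simp
      · rw [h4, h5, hk]
        simp
    · intro i _ hi
      rw [P.mv_eq (κ := ⟨e₀, i⟩), sub_self]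
      intro hqi hc
      have h4 := h3 ⟨e₀, i⟩ ⟨q₀, hq₀, hqi⟩ hc
      cases h4
      exact hi rfl
    · intro h
      exact absurd (Finset.mem_univ _) h
  obtain ⟨ε, he⟩ : ∃ ε, ε = ∑ i, vl η (q₀ i) (P.a e₀ i) (q₀ (i + 1)) := ⟨_, rfl⟩
  obtain ⟨δ, hd⟩ : ∃ δ, δ = ∑ i, vl (P.pb p U c') (q₀ i) (P.a e₀ i) (q₀ (i + 1)) := ⟨_, rfl⟩
  rw [← he] at hε
  obtain ⟨k', hk'⟩ := hA (fun y => P.pb p U c' y + (-(δ / ε)) * η y) (by
    intro ρ hρ v hv
    rw [LG.trSum_add, LG.trSum_smul, P.inner_spl hR hin ρ hρ v hv, hη,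
      P.inner_eta hR p U k ρ hρ v hv]
    ring) (by
    intro e q hq
    simp only [vl_lin]
    rw [Finset.sum_add_distrib, ← Finset.mul_sum]
    rcases hcase e q hq with hn | hn
    · rw [hη0 e q hq hn, P.sum_lift c' hq hn, hout e _ (P.poly_lift hq hn)]
      ring
    · rw [hn, hn, ← he, ← hd]
      field_simp
      ring)
  refine ⟨fun y => k' (pr p y) + δ / ε * k y, fun y x z h => ?_⟩
  obtain ⟨u, v, h4, rfl, rfl⟩ := P.mem_spl.1 h
  simp only [pr_mv]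
  have h5 := hk' u x v h4
  simp only [pb, hη, eta] at h5
  linarith

end OW

end Pool.Agent.WhtLI
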