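import Pool.Agent.Lib.WhtLI.SplB

/-!
# SubN : the measure of the parts

(helper62, problem MP_cf50d6_gt; as in `Lib/InjLI` by helper18 and the seats of inj)

`mu = F.card + sq.card`.
-/

set_option autoImplicit false

open scoped Classical

namespace Pool.Agent.WhtLI

open Pool.Agent.LIA

universe u v

namespace OW

variable {X : Type u} {I J E : Type} {W : Type*} (P : OW X I J E)

private theorem SubN_mem {α : Type*} {s : Finset α} {f : α → Prop} {inst : DecidablePred f}
    {a : α} (h : a ∈ @Finset.filter α f inst s) : a ∈ s ∧ f a :=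
  (@Finset.mem_filter α f inst s a).1 h

private theorem SubN_step {V : Type*} {Δ : LG V X} {T : Set V} {a b : T} {l : X × Bool}
    (h : (sub Δ T).Step a l b) : Δ.Step a.1 l b.1 := by
  unfold LG.Step at h ⊢
  split_ifs at h ⊢ with hl
  · exact mem_sub.1 h
  · exact mem_sub.1 h

private theorem SubN_sq [Fintype E] {V : Type*} [Fintype V] (Δ : LG V X) (T : Set V)
    [Fintype ↥T] : (P.sq (sub Δ T)).card ≤ (P.sq Δ).card := by
  refine Finset.card_le_card_of_injOn (fun σ => ⟨σ.1, fun i => (σ.2 i).1⟩) ?_ ?_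
  · rintro ⟨e, q⟩ h
    have h1 : P.Poly (sub Δ T) e q := by
      simpa [OW.sq] using h
    have h2 : P.Poly Δ e fun i => (q i).1 := fun c => SubN_step (h1 c)
    simpa [OW.sq] using h2
  · rintro ⟨e, q⟩ _ ⟨e', q'⟩ _ h
    simp only [Sigma.mk.injEq] at h
    obtain ⟨h1, h2⟩ := h
    subst h1
    rw [heq_iff_eq] at h2
    have h3 : q = q' := by
      funext i
      exact Subtype.ext (congrFun h2 i)
    rw [h3]

private theorem SubN_F {V : Type*} (Δ : LG V X) (T : Set V) {a b : V} {x : X}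
    (h : (a, x, b) ∈ Δ.F) (hab : a ∉ T ∨ b ∉ T) : (sub Δ T).F.card < Δ.F.card := by
  have h1 : ((sub Δ T).F.image fun e => (e.1.1, e.2.1, e.2.2.1)).card = (sub Δ T).F.card := by
    refine Finset.card_image_of_injective _ ?_
    rintro ⟨u, y, v⟩ ⟨u', y', v'⟩ h
    simp only [Prod.mk.injEq] at h
    obtain ⟨h2, h3, h4⟩ := h
    rw [Subtype.ext h2, h3, Subtype.ext h4]
  rw [← h1]
  refine Finset.card_lt_card ⟨?_, ?_⟩
  · intro e he
    rw [Finset.mem_image] at he
    obtain ⟨⟨u, y, v⟩, h2, rfl⟩ := he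
    exact mem_sub.1 h2
  · intro hh
    have h2 := hh h
    rw [Finset.mem_image] at h2
    obtain ⟨⟨u, y, v⟩, _, h3⟩ := h2
    simp only [Prod.mk.injEq] at h3
    rcases hab with h4 | h4
    · exact h4 (h3.1 ▸ u.2)
    · exact h4 (h3.2.2 ▸ v.2)

private theorem SubN_S {V : Type*} {Δ : LG V X} (T : Set V) {a b : V} {l : X × Bool}
    (h : Δ.Step a l b) (ha : a ∉ T) : (sub Δ T).F.card < Δ.F.card := by
  unfold LG.Step at h
  split_ifs at h with hl
  · exact SubN_F Δ T h (Or.inl ha)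
  · exact SubN_F Δ T h (Or.inr ha)

theorem mu_sub_lt [Fintype J] [Fintype E] [Fintype W] {Γ : LG W X} {p : W} {U : Finset J}
    (hU : U.Nonempty) (hU' : U ⊂ P.Jp Γ p) {T : Set (Option W)} [Fintype ↥T] [Fintype ↥(Tᶜ)]
    (h1 : none ∈ T) (h2 : some p ∉ T) :
    P.mu (sub (P.spl Γ p U) T) < P.mu Γ ∧ P.mu (sub (P.spl Γ p U) Tᶜ) < P.mu Γ := by
  have hs := P.sq_spl_le Γ p U
  have hc := P.card_spl Γ p U
  constructor
  · obtain ⟨j, hj, hjU⟩ := Finset.exists_of_ssubset hU'
    obtain ⟨ε, v, hst, hx⟩ := (SubN_mem hj).2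
    have hm := (P.step_spl_mv (p := p) (U := U)).2 hst
    have hmv : mv p U p (P.ec ε) = some p := by
      unfold mv
      rw [if_neg]
      rintro ⟨-, h⟩
      exact hjU (hx ▸ h)
    rw [hmv] at hm
    have h3 := SubN_S T hm h2
    have h4 := P.SubN_sq (P.spl Γ p U) T
    unfold OW.mu
    omega
  · obtain ⟨j, hjU⟩ := hU
    have hj := hU'.1 hjU
    obtain ⟨ε, v, hst, hx⟩ := (SubN_mem hj).2
    have hm := (P.step_spl_mv (p := p) (U := U)).2 hst
    have hmv : mv p U p (P.ec ε) = none := by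
      unfold mv
      rw [if_pos]
      exact ⟨rfl, hx ▸ hjU⟩
    rw [hmv] at hm
    have h3 := SubN_S Tᶜ hm (fun h => h h1)
    have h4 := P.SubN_sq (P.spl Γ p U) Tᶜ
    unfold OW.mu
    omega

end OW

end Pool.Agent.WhtLI
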