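import Pool.Agent.Lib.WhtLI.Defs

/-!
# Wof : closed walks of cyclic words

(helper62, problem MP_cf50d6_gt; as in `Lib/InjLI` by helper18 and the seats of inj)
-/

set_option autoImplicit false

open scoped Classical

namespace Pool.Agent.WhtLI

open Pool.Agent.LIA

universe u v

namespace OW

variable {X : Type u} {I J E : Type} {W : Type*} (P : OW X I J E)


private theorem wof_walk {Γ : LG W X} : ∀ (n : ℕ) (a : Fin n → X × Bool) (q : Fin (n + 1) → W),
    (∀ i, Γ.Step (q i.castSucc) (a i) (q i.succ)) →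
      Γ.Walk (q 0) (List.ofFn a) (q (Fin.last n))
  | 0, a, q, _ => by
    rw [List.ofFn_zero]
    rfl
  | n + 1, a, q, h => by
    rw [List.ofFn_succ]
    exact LG.walk_cons.2 ⟨q 1, h 0,
      wof_walk n (fun i => a i.succ) (fun i => q i.succ) fun i => h i.succ⟩

private theorem wof_ex {Γ : LG W X} : ∀ (n : ℕ) (a : Fin n → X × Bool) (u v : W),
    Γ.Walk u (List.ofFn a) v →
      ∃ q : Fin (n + 1) → W, q 0 = u ∧ q (Fin.last n) = v ∧
        ∀ i, Γ.Step (q i.castSucc) (a i) (q i.succ)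
  | 0, a, u, v, h => by
    rw [List.ofFn_zero] at h
    exact ⟨fun _ => u, rfl, h, fun i => i.elim0⟩
  | n + 1, a, u, v, h => by
    rw [List.ofFn_succ] at h
    obtain ⟨w, h1, h2⟩ := LG.walk_cons.1 h
    obtain ⟨q, hq0, hql, hq⟩ := wof_ex n (fun i => a i.succ) w v h2
    refine ⟨Fin.cons u q, Fin.cons_zero _ _, ?_, ?_⟩
    · rw [← Fin.succ_last, Fin.cons_succ]
      exact hql
    · intro i
      refine Fin.cases ?_ (fun j => ?_) i
      · rw [Fin.castSucc_zero, Fin.cons_zero, Fin.cons_succ, hq0]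
        exact h1
      · rw [Fin.cons_succ, ← Fin.succ_castSucc, Fin.cons_succ]
        exact hq j

private theorem wof_sum {Γ : LG W X} (c : W × X × W → ℚ) :
    ∀ (n : ℕ) (a : Fin n → X × Bool) (q : Fin (n + 1) → W),
    (∀ i, Γ.Step (q i.castSucc) (a i) (q i.succ)) →
      Γ.trSum c (q 0) (List.ofFn a) = ∑ i, vl c (q (Fin.castSucc i)) (a i) (q i.succ)
  | 0, a, q, _ => by
    rw [List.ofFn_zero, LG.trSum_nil]
    simp
  | n + 1, a, q, h => by
    have h0 : Γ.Step (q 0) (a 0) (q 1) := h 0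
    have h1 := wof_sum (Γ := Γ) c n (fun i => a i.succ) (fun i => q i.succ) fun i => h i.succ
    rw [List.ofFn_succ, LG.trSum_cons Γ c _ h0, Fin.sum_univ_succ]
    exact congrArg₂ (· + ·) rfl h1

private theorem wof_cyc {n : ℕ} (q : Fin (n + 1) → W) (i : Fin (n + 1)) :
    (Fin.snoc q (q 0) : Fin (n + 2) → W) i.succ = q (i + 1) := by
  refine Fin.lastCases ?_ (fun j => ?_) i
  · rw [Fin.succ_last, Fin.snoc_last, Fin.last_add_one]
  · rw [Fin.succ_castSucc, Fin.snoc_castSucc, Fin.coeSucc_eq_succ]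

private theorem wof_zero {n : ℕ} (q : Fin (n + 1) → W) :
    (Fin.snoc q (q 0) : Fin (n + 2) → W) 0 = q 0 := by
  have h1 : (0 : Fin (n + 2)) = (0 : Fin (n + 1)).castSucc := rfl
  rw [h1, Fin.snoc_castSucc]

private theorem wof_cyc' {n : ℕ} (q : Fin (n + 2) → W) (h : q 0 = q (Fin.last (n + 1)))
    (i : Fin (n + 1)) : q (i + 1).castSucc = q i.succ := by
  refine Fin.lastCases ?_ (fun j => ?_) i
  · rw [Fin.succ_last, Fin.last_add_one, Fin.castSucc_zero, h]
  · rw [Fin.succ_castSucc, Fin.coeSucc_eq_succ]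

theorem walk_ofFn {Γ : LG W X} {n : ℕ} (a : Fin (n + 1) → X × Bool) (v : W) :
    Γ.Walk v (List.ofFn a) v ↔
      ∃ q : Fin (n + 1) → W, q 0 = v ∧ ∀ i, Γ.Step (q i) (a i) (q (i + 1)) := by
  constructor
  · intro h
    obtain ⟨q, h0, hl, hq⟩ := wof_ex (n + 1) a v v h
    refine ⟨fun i => q i.castSucc, h0, fun i => ?_⟩
    have h3 := hq i
    rw [← wof_cyc' q (h0.trans hl.symm)] at h3
    exact h3
  · rintro ⟨q, rfl, hq⟩
    have h1 := wof_walk (Γ := Γ) (n + 1) a (Fin.snoc q (q 0)) fun i => by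
      rw [wof_cyc, Fin.snoc_castSucc]
      exact hq i
    rw [Fin.snoc_last, wof_zero] at h1
    exact h1

theorem trSum_ofFn {Γ : LG W X} {n : ℕ} (a : Fin (n + 1) → X × Bool) (c : W × X × W → ℚ)
    {q : Fin (n + 1) → W} (h : ∀ i, Γ.Step (q i) (a i) (q (i + 1))) :
    Γ.trSum c (q 0) (List.ofFn a) = ∑ i, vl c (q i) (a i) (q (i + 1)) := by
  have h1 := wof_sum (Γ := Γ) c (n + 1) a (Fin.snoc q (q 0)) fun i => by
    rw [wof_cyc, Fin.snoc_castSucc]
    exact h i
  rw [wof_zero] at h1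
  rw [h1]
  refine Finset.sum_congr rfl fun i _ => ?_
  rw [wof_cyc, Fin.snoc_castSucc]

theorem acyc_of {Γ : LG W X} {R : Set (FreeGroup X)} (h : Γ.Acy (P.relw R)) : P.Acyc R Γ := by
  intro c h1 h2
  apply h c
  intro v z hz
  rcases z with ρ | e
  · exact h1 ρ.1 ρ.2 v hz
  · obtain ⟨q, rfl, hq⟩ := (walk_ofFn (Γ := Γ) (P.a e) v).1 hz
    exact (trSum_ofFn (P.a e) c hq).trans (h2 e q hq)

end OW

end Pool.Agent.WhtLI
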