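import Pool.Agent.Lib.WhtLI.NoE
import Pool.Agent.Lib.WhtLI.SplA
import Pool.Agent.Lib.WhtLI.SplZ
import Pool.Agent.Lib.WhtLI.SplC
import Pool.Agent.Lib.WhtLI.SubA
import Pool.Agent.Lib.WhtLI.SubN
import Pool.Agent.Lib.WhtLI.Glu
import Pool.Agent.Lib.WhtLI.SplG
import Pool.Agent.Lib.WhtLI.Wof
import Pool.Agent.Lib.TwLI.VPot
import Pool.Agent.Lib.TwLI.VInd

/-!
# IndN : the induction and the passage to groups, if reduced graphs have no essential vertices

(helper62, problem MP_cf50d6_gt; the proofs are those of `Lib/InjLI/Ind.lean` and `Lib/InjLI/Base.lean` by helper18)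
-/

set_option autoImplicit false

open scoped Classical

namespace Pool.Agent.WhtLI

open Pool.Agent.LIA

universe u v

namespace OW

/-- connected acyclic reduced graphs have no essential vertices -/
def NoEss {X : Type u} {I J E : Type} (P : OW X I J E) [Fintype I] [Fintype J] [Fintype E] {Q : I → Type v}
    [∀ b, Group (Q b)] (f : ∀ b, X → Q b) : Prop :=
  ∀ (W : Type u) [Fintype W] [Nonempty W] (Γ : LG W X), Cn Γ → P.Acyc (P.inn f) Γ → P.Rdc Γ →
    ¬ ∃ p, P.Ess Γ p

private theorem IndN_step {X : Type u} {I J E : Type} (P : OW X I J E) [Fintype I] [Fintype J] [Fintype E]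
    {Q : I → Type v}
    [∀ b, Group (Q b)] (hQ : ∀ b, LocallyIndicable (Q b)) {f : ∀ b, X → Q b} (hM : P.Mono (P.inn f)) (hne : P.NoEss f)
    {G : Type*} [Group G] {g : X → G}
    (θ : ∀ b, Q b →* G) (hθ : ∀ x, θ (P.cl x) (f (P.cl x) x) = g x)
    (hr : ∀ e, FreeGroup.lift g (FreeGroup.mk (List.ofFn (P.a e))) = 1) (n : ℕ) :
    ∀ (W : Type u) (_ : Fintype W) (_ : Nonempty W) (Γ : LG W X), P.mu Γ = n → Cn Γ →
      P.Acyc (P.inn f) Γ → PotG g Γ ∧ P.PotB f Γ := by
  induction n using Nat.strong_induction_on with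
  | _ n ih =>
    intro W hW hW' Γ hn hC hA
    by_cases hR : P.Rdc Γ
    · exact P.pot_of_not_ess hQ θ hθ hC hA (hne W Γ hC hA hR)
    · unfold Rdc at hR
      push Not at hR
      obtain ⟨p, U, hU, hU', hlt⟩ := hR
      have hat : ∀ κ, κ ∈ P.cor Γ p ↔ P.At Γ p κ := by
        intro κ
        unfold cor
        simp
      have hcases : ((P.cor Γ p).filter fun κ => P.Cr κ U).card = 0 ∨
          ((P.cor Γ p).filter fun κ => P.Cr κ U).card = 1 := by omega
      rcases hcases with h | h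
      · have h0 : ∀ κ, P.At Γ p κ → ¬ P.Cr κ U := by
          intro κ h1 h2
          have h3 : κ ∈ (P.cor Γ p).filter fun κ => P.Cr κ U :=
            Finset.mem_filter.2 ⟨(hat κ).2 h1, h2⟩
          rw [Finset.card_eq_zero.1 h] at h3
          exact absurd h3 (Finset.notMem_empty _)
        obtain ⟨T, hT1, hT2, hT⟩ := P.exists_closed hM hA h0
        have hA' := P.acyc_spl_zero hM hA h0
        obtain ⟨hC1, hC2⟩ := P.cn_sub hC hT hT1 hT2
        have hTc : ∀ y x z, (y, x, z) ∈ (P.spl Γ p U).F → (y ∈ Tᶜ ↔ z ∈ Tᶜ) := by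
          intro y x z hy
          exact not_congr (hT y x z hy)
        have hA1 := P.acyc_sub hA' hT
        have hA2 := P.acyc_sub hA' hTc
        let f1 : Fintype ↥T := Fintype.ofFinite _
        let f2 : Fintype ↥(Tᶜ) := Fintype.ofFinite _
        obtain ⟨hm1, hm2⟩ := P.mu_sub_lt (Γ := Γ) hU hU' hT1 hT2
        obtain ⟨g1, b1⟩ := ih _ (hn ▸ hm1) ↥T f1 ⟨⟨none, hT1⟩⟩ _ rfl hC1 hA1
        obtain ⟨g2, b2⟩ := ih _ (hn ▸ hm2) ↥(Tᶜ) f2 ⟨⟨some p, hT2⟩⟩ _ rfl hC2 hA2
        exact ⟨P.potG_sub g hT hT1 hT2 g1 g2, P.potB_spl f (P.potB_sub f hT b1 b2)⟩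
      · obtain ⟨κ₀, hκ⟩ := Finset.card_eq_one.1 h
        have h12 : κ₀ ∈ (P.cor Γ p).filter fun κ => P.Cr κ U := by
          rw [hκ]
          exact Finset.mem_singleton_self _
        obtain ⟨h1', h2⟩ := Finset.mem_filter.1 h12
        have h1 := (hat κ₀).1 h1'
        have h3 : ∀ κ, P.At Γ p κ → P.Cr κ U → κ = κ₀ := by
          intro κ h4 h5
          have h6 : κ ∈ (P.cor Γ p).filter fun κ => P.Cr κ U :=
            Finset.mem_filter.2 ⟨(hat κ).2 h4, h5⟩
          rw [hκ] at h6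
          exact Finset.mem_singleton.1 h6
        have hA' := P.acyc_spl_one hM hA h1 h2 h3
        have hC' := P.cn_spl_one hC h1 h2 h3
        have hm : P.mu (P.spl Γ p U) < P.mu Γ := by
          unfold mu
          rw [P.card_spl]
          exact Nat.add_lt_add_left (P.sq_spl_lt h1 h2) _
        obtain ⟨g1, b1⟩ := ih _ (hn ▸ hm) (Option W) inferInstance ⟨none⟩ _ rfl hC' hA'
        exact ⟨P.potG_spl g hr h1 h2 h3 g1, P.potB_spl f b1⟩

theorem mainN {X : Type u} {I J E : Type} (P : OW X I J E) [Fintype I] [Fintype J] [Fintype E] {Q : I → Type v}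
    [∀ b, Group (Q b)] (hQ : ∀ b, LocallyIndicable (Q b)) {f : ∀ b, X → Q b} (hM : P.Mono (P.inn f)) (hne : P.NoEss f)
    {G : Type*} [Group G] {g : X → G}
    (θ : ∀ b, Q b →* G) (hθ : ∀ x, θ (P.cl x) (f (P.cl x) x) = g x)
    (hr : ∀ e, FreeGroup.lift g (FreeGroup.mk (List.ofFn (P.a e))) = 1) (W : Type u) [Fintype W]
    [Nonempty W] (Γ : LG W X) (hC : Cn Γ) (hA : P.Acyc (P.inn f) Γ) : PotG g Γ ∧ P.PotB f Γ :=
  IndN_step P hQ hM hne θ hθ hr _ W inferInstance inferInstance Γ rfl hC hA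

end OW

private theorem baseN_walk_pot {X : Type u} {W : Type*} {G : Type*} [Group G] {g : X → G}
    {Γ : LG W X} {φ : W → G} (Z : X → Prop)
    (hφ : ∀ p x q, (p, x, q) ∈ Γ.F → Z x → φ q = φ p * g x) :
    ∀ (L : List (X × Bool)) (u v : W), (∀ t ∈ L, Z t.1) → Γ.Walk u L v →
      φ v = φ u * FreeGroup.lift g (FreeGroup.mk L) := by
  intro L
  induction L with
  | nil =>
    intro u v _ h
    obtain rfl := h
    rw [← FreeGroup.one_eq_mk, map_one, mul_one]
  | cons l L ih =>
    intro u v hZ h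
    obtain ⟨c, h1, h2⟩ := h
    rw [ih c v (fun t ht => hZ t (List.mem_cons_of_mem _ ht)) h2, mk_cons, map_mul, ← mul_assoc]
    congr 1
    have hZl : Z l.1 := hZ l List.mem_cons_self
    obtain ⟨s, b⟩ := l
    cases b
    · rw [LG.step_false] at h1
      rw [lv_false, map_inv, FreeGroup.lift_apply_of, eq_mul_inv_iff_mul_eq]
      exact (hφ _ _ _ h1 hZl).symm
    · rw [LG.step_true] at h1
      rw [lv_true, FreeGroup.lift_apply_of]
      exact hφ _ _ _ h1 hZl

private theorem baseN_mk_toWord {S : Type*} (inst : DecidableEq S) (x : FreeGroup S) :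
    FreeGroup.mk (@FreeGroup.toWord S inst x) = x := @FreeGroup.mk_toWord S inst x

private theorem baseN_cn {X : Type u} {W : Type*} {Γ : LG W X} {o : W} (h : ∀ x, Γ.Conn o x) :
    Cn Γ := by
  intro S hS hcl w
  have key : ∀ a l b, a ∈ S → Γ.Step a l b → b ∈ S := by
    rintro a ⟨s, c⟩ b ha hab
    cases c
    · rw [LG.step_false] at hab
      exact (hcl _ _ _ hab).2 ha
    · rw [LG.step_true] at hab
      exact (hcl _ _ _ hab).1 ha
  obtain ⟨a, ha⟩ := hS
  have ho : o ∈ S := LG.Conn.induction (p := fun x => x ∈ S) ha key (h a).symm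
  exact LG.Conn.induction (p := fun x => x ∈ S) ho key (h w)

namespace OW

theorem baseN {X : Type u} {I J E : Type} (P : OW X I J E) [Fintype I] [Fintype J] [Fintype E] {Q : I → Type v}
    [∀ b, Group (Q b)] (hQ : ∀ b, LocallyIndicable (Q b)) {f : ∀ b, X → Q b}
    (hM : P.Mono (P.inn f)) (hne : P.NoEss f) {G : Type*} [Group G] {g : X → G}
    (θ : ∀ b, Q b →* G) (hθ : ∀ x, θ (P.cl x) (f (P.cl x) x) = g x)
    (hr : ∀ e, FreeGroup.lift g (FreeGroup.mk (List.ofFn (P.a e))) = 1)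
    (hsurj : Function.Surjective (FreeGroup.lift g))
    (hker : (FreeGroup.lift g).ker ≤ Subgroup.normalClosure
      (Set.range fun z => FreeGroup.mk (P.relw (P.inn f) z))) :
    LocallyIndicable G ∧ ∀ b, P.One b → ∀ (ρ : FreeGroup X), (∀ t ∈ ρ.toWord, P.cl t.1 = b) →
      FreeGroup.lift g ρ = 1 → FreeGroup.lift (f b) ρ = 1 := by
  have hmain : ∀ {n : ℕ} (k : Fin n → FreeGroup X),
      (∀ F : Subgroup.closure (Set.range fun j => FreeGroup.lift g (k j)) →* Multiplicative ℚ,
        ∀ h, F h = 1) →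
      ∃ (W : Type u) (Δ : LG W X) (o : W), PotG g Δ ∧ P.PotB f Δ ∧
        ∀ j, Δ.Walk o (k j).toWord o := by
    intro n k hno
    obtain ⟨W, _, Δ, o, hc, hAcy, hw⟩ := exists_graph_acy (FreeGroup.lift g)
      (P.relw (P.inn f)) hker k hno
    have : Nonempty W := ⟨o⟩
    have h1 := P.mainN hQ hM hne θ hθ hr W Δ (baseN_cn hc) (P.acyc_of hAcy)
    exact ⟨W, Δ, o, h1.1, h1.2, hw⟩
  constructor
  · intro H hH hne0
    by_contra hno
    obtain ⟨T, hT⟩ := id hH
    let e := T.equivFin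
    choose k hk using fun j : Fin T.card => hsurj ((e.symm j : G))
    have hy : Subgroup.closure (Set.range fun j => FreeGroup.lift g (k j)) = H := by
      rw [← hT]
      congr 1
      ext x
      constructor
      · rintro ⟨j, rfl⟩
        change FreeGroup.lift g (k j) ∈ (T : Set G)
        rw [hk]
        exact (e.symm j).2
      · intro hx
        refine ⟨e ⟨x, hx⟩, ?_⟩
        change FreeGroup.lift g (k (e ⟨x, hx⟩)) = x
        rw [hk]
        simp
    have hHfg : Group.FG H := by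
      rw [Group.fg_iff_subgroup_fg]
      exact hH
    obtain ⟨W, Δ, o, ⟨φ, hφ⟩, _, hw⟩ := hmain k (by
      rw [hy]
      exact fun F => hom_rat_trivial hHfg hno F)
    apply hne0
    rw [← hy, Subgroup.closure_eq_bot_iff]
    rintro _ ⟨j, rfl⟩
    have h2 := baseN_walk_pot (fun _ => True) (fun p x q h _ => hφ p x q h) _ o o
      (fun _ _ => trivial) (hw j)
    rw [baseN_mk_toWord] at h2
    exact left_eq_mul.1 h2
  · intro b hb1 ρ hρ h1
    obtain ⟨W, Δ, o, _, hB, hw⟩ := hmain (fun _ : Fin 1 => ρ) (by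
      intro F h
      have h2 : h = 1 := by
        have h3 : Subgroup.closure (Set.range fun _ : Fin 1 => FreeGroup.lift g ρ) = ⊥ := by
          rw [Subgroup.closure_eq_bot_iff]
          rintro _ ⟨_, rfl⟩
          exact h1
        apply Subtype.ext
        have h4 : (h : G) ∈ (⊥ : Subgroup G) := by
          rw [← h3]
          exact h.2
        exact Subgroup.mem_bot.1 h4
      rw [h2, map_one])
    obtain ⟨φ, hφ⟩ := hB b hb1
    have h2 := baseN_walk_pot (fun x => P.cl x = b) hφ _ o o hρ (hw 0)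
    rw [baseN_mk_toWord] at h2
    exact left_eq_mul.1 h2

end OW

end Pool.Agent.WhtLI
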