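import Pool.Agent.Lib.WhtLI.Gsm
import Pool.Agent.Lib.WhtLI.IndN
import Pool.Agent.Lib.WhtLI.Grp
import Pool.Agent.Lib.InjLI.Ker
import Pool.Agent.Lib.TwLI.VFree
import Pool.Agent.Lib.MP_cf50d6_gt.Push

/-!
# Col : the theorem for finite systems

(helper62, problem MP_cf50d6_gt)
-/

set_option autoImplicit false

set_option linter.unusedSectionVars false

open scoped Classical

namespace Pool.Agent.WhtLI

open Pool.Agent.LIA

open Pool.Agent.InjLI (fv fv_self)

universe u v w'

namespace OW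

variable {X : Type u} {I J E : Type} (P : OW X I J E) {L : Type*} [Group L]

theorem acy_of {W : Type*} {R : Set (FreeGroup X)} {Γ : LG W X} (h : P.Acyc R Γ) :
    Γ.Acy (P.relw R) := by
  intro c hc
  refine h c (fun ρ hρ v hv => hc v (Sum.inl ⟨ρ, hρ⟩) hv) (fun e q hq => ?_)
  have h1 := hc (q 0) (Sum.inr e) ((walk_ofFn (P.a e) (q 0)).2 ⟨q, rfl, hq⟩)
  exact (trSum_ofFn (P.a e) c hq).symm.trans h1

private theorem colH_mk_toWord {S : Type*} (inst : DecidableEq S) (x : FreeGroup S) :
    FreeGroup.mk (@FreeGroup.toWord S inst x) = x := @FreeGroup.mk_toWord S inst x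

private theorem lift_blk {Q : Type*} [Group Q] (f : X → Q) (η : X → L) (χ : Q →* L)
    (b : I) (hη : ∀ x, P.cl x = b → χ (f x) = η x) : ∀ l : List (X × Bool),
    (∀ t ∈ l, P.cl t.1 = b) →
      FreeGroup.lift η (FreeGroup.mk l) = χ (FreeGroup.lift f (FreeGroup.mk l)) := by
  intro l
  induction l with
  | nil => intro _; rw [← FreeGroup.one_eq_mk, map_one, map_one, map_one]
  | cons t l ih =>
    intro h
    rw [mk_cons, map_mul, map_mul, map_mul, ih fun t' ht' => h t' (List.mem_cons_of_mem _ ht')]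
    congr 1
    obtain ⟨x, c⟩ := t
    have hx : P.cl x = b := h _ List.mem_cons_self
    cases c
    · rw [lv_false, map_inv, map_inv, map_inv, FreeGroup.lift_apply_of,
        FreeGroup.lift_apply_of, hη x hx]
    · rw [lv_true, FreeGroup.lift_apply_of, FreeGroup.lift_apply_of, hη x hx]

theorem exists_height {W : Type*} [Fintype W] {Q : I → Type v} [∀ b, Group (Q b)]
    {f : ∀ b, X → Q b} (hL : LocallyIndicable L) {η : X → L} (χ : ∀ b, Q b →* L)
    (hη : ∀ x, χ (P.cl x) (f (P.cl x) x) = η x)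
    (hr : ∀ e, FreeGroup.lift η (FreeGroup.mk (List.ofFn (P.a e))) = 1) {Γ : LG W X}
    (hA : P.Acyc (P.inn f) Γ) : ∃ θ : W → L, ∀ p x q, (p, x, q) ∈ Γ.F → θ q = θ p * η x := by
  refine LG.acy_pot hL Γ (P.acy_of hA) (fun e => η e.2.1) fun v z hz => ?_
  have h1 := wv_label η hz
  have h2 : FreeGroup.lift η (FreeGroup.mk (P.relw (P.inn f) z)) = 1 := by
    rcases z with ρ | e
    · obtain ⟨ρ, b, hb1, hb2⟩ := ρ
      change FreeGroup.lift η (FreeGroup.mk ρ.toWord) = 1
      rw [P.lift_blk (f b) η (χ b) b (by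
        rintro x rfl
        exact hη x) ρ.toWord hb1, colH_mk_toWord, hb2, map_one]
    · exact hr e
  rw [h2] at h1
  exact h1

theorem noEssH [Fintype I] [Fintype J] [Fintype E] {Q : I → Type v} [∀ b, Group (Q b)]
    (hQ : ∀ b, LocallyIndicable (Q b)) {f : ∀ b, X → Q b} (hL : LocallyIndicable L) {η : X → L}
    (χ : ∀ b, Q b →* L) (hη : ∀ x, χ (P.cl x) (f (P.cl x) x) = η x)
    (hr : ∀ e, FreeGroup.lift η (FreeGroup.mk (List.ofFn (P.a e))) = 1)
    (hCv : ∀ S : Finset L, ∃ (O : Type) (_ : Fintype O) (s : O → X → L → Bool)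
      (w : P.Cor → L → ℝ) (α : I → O → L → ℝ) (lam : X → L → ℝ), P.CvH f η S s w α lam) :
    P.NoEss f := by
  intro W _ _ Γ hC hA hR
  obtain ⟨θ, hθ⟩ := P.exists_height hL χ hη hr hA
  obtain ⟨O, _, s, w, α, lam, h⟩ := hCv (Finset.univ.image θ)
  exact P.not_essH hQ h hθ (fun p => Finset.mem_image_of_mem _ (Finset.mem_univ p)) hC hA hR

end OW

/-! ## the letters of groups and free letters -/

section

variable {I T : Type} {H : I → Type u} [∀ b, Group (H b)]

/-- the block of a letter -/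
def lcl : Ltr H T → I ⊕ T
  | Sum.inl y => Sum.inl y.1
  | Sum.inr t => Sum.inr t

/-- the class of an end -/
def lec : Ltr H T × Bool → I ⊕ (T × Bool)
  | (Sum.inl y, _) => Sum.inl y.1
  | (Sum.inr t, c) => Sum.inr (t, c)

theorem lec_lcl (ε ε' : Ltr H T × Bool) (h : lec ε = lec ε') : lcl ε.1 = lcl ε'.1 := by
  obtain ⟨y | t, c⟩ := ε
  · obtain ⟨y' | t', c'⟩ := ε'
    · have h1 : y.1 = y'.1 := Sum.inl.inj h
      exact congrArg Sum.inl h1
    · cases h
  · obtain ⟨y' | t', c'⟩ := ε'
    · cases h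
    · have h1 : (t, c) = (t', c') := Sum.inr.inj h
      exact congrArg Sum.inr (congrArg Prod.fst h1)

/-- the groups of the blocks -/
def Qs {I : Type} (H : I → Type u) (T : Type) : I ⊕ T → Type u
  | Sum.inl b => H b
  | Sum.inr _ => ULift.{u} (Multiplicative ℤ)

instance qsGroup : ∀ b, Group (Qs H T b)
  | Sum.inl b => inferInstanceAs (Group (H b))
  | Sum.inr _ => inferInstanceAs (Group (ULift.{u} (Multiplicative ℤ)))

/-- the generator of the group of a free letter -/
def gz : ULift.{u} (Multiplicative ℤ) := ULift.up (Multiplicative.ofAdd 1)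

/-- the values of the letters in the groups of the blocks -/
noncomputable def fs : ∀ b : I ⊕ T, Ltr H T → Qs H T b
  | Sum.inl b => fun x => match x with
    | Sum.inl y => fv b y
    | Sum.inr _ => 1
  | Sum.inr t => fun x => match x with
    | Sum.inl _ => 1
    | Sum.inr t' => if t' = t then gz else 1

/-- a family of homomorphisms on the groups of the blocks -/
def hs {G : Type*} [Group G] (θ : ∀ b, H b →* G) (τ : T → G) : ∀ b : I ⊕ T, Qs H T b →* G
  | Sum.inl b => θ b
  | Sum.inr t => (zpowersHom G (τ t)).comp (MulEquiv.ulift : ULift.{u} (Multiplicative ℤ) ≃* _).toMonoidHom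

theorem hs_fs {G : Type*} [Group G] (θ : ∀ b, H b →* G) (τ : T → G) (x : Ltr H T) :
    hs θ τ (lcl x) (fs (lcl x) x) = ev θ τ x := by
  rcases x with y | t
  · change θ y.1 (fv y.1 y) = θ y.1 y.2
    rw [show fv y.1 y = y.2 from fv_self y.1 y.2]
  · change ((zpowersHom G (τ t)).comp
      (MulEquiv.ulift : ULift.{u} (Multiplicative ℤ) ≃* _).toMonoidHom)
      (if t = t then gz else 1) = τ t
    rw [if_pos rfl]
    exact zpow_one (τ t)

theorem li_int' : LocallyIndicable (ULift.{u} (Multiplicative ℤ)) := by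
  refine LocallyIndicable.of_injective ((zpowersHom (FreeGroup Unit) (FreeGroup.of ())).comp
    (MulEquiv.ulift : ULift.{u} (Multiplicative ℤ) ≃* _).toMonoidHom) ?_ (li_freeGroup Unit)
  rw [MonoidHom.coe_comp]
  refine Function.Injective.comp ?_ (MulEquiv.injective _)
  rw [injective_iff_map_eq_one]
  intro a ha
  have h1 : FreeGroup.lift (fun _ : Unit => Multiplicative.ofAdd (1 : ℤ))
      (zpowersHom (FreeGroup Unit) (FreeGroup.of ()) a) = 1 := by
    rw [ha, map_one]
  rw [zpowersHom_apply, map_zpow, FreeGroup.lift_apply_of, ← ofAdd_zsmul] at h1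
  simpa using h1

theorem li_qs (hH : ∀ b, LocallyIndicable (H b)) : ∀ b, LocallyIndicable (Qs H T b)
  | Sum.inl b => hH b
  | Sum.inr _ => li_int'

end

section

variable {I T E : Type} {H : I → Type u} [∀ b, Group (H b)] {m : E → ℕ}
  (a : ∀ e, Fin (m e + 1) → Ltr H T × Bool)
  (alt : ∀ e c, lec (linv (a e c)) ≠ lec (a e (c + 1)))

/-- the words as an outer system -/
abbrev PW : OW (Ltr H T) (I ⊕ T) (I ⊕ (T × Bool)) E where
  cl := lcl
  ec := lec
  hec := lec_lcl
  m := m
  a := a
  alt := alt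

private theorem pw_single {X : Type*} (x : X) (L : List (X × Bool)) (h : ∀ s ∈ L, s.1 = x) :
    ∃ k : ℤ, FreeGroup.mk L = FreeGroup.of x ^ k := by
  induction L with
  | nil => exact ⟨0, by rw [zpow_zero]; rfl⟩
  | cons l L ih =>
    obtain ⟨k, hk⟩ := ih fun s hs => h s (List.mem_cons_of_mem _ hs)
    obtain ⟨y, c⟩ := l
    have hy : y = x := h _ List.mem_cons_self
    subst hy
    rw [mk_cons, hk]
    cases c
    · refine ⟨-1 + k, ?_⟩
      rw [lv_false, zpow_add, zpow_neg, zpow_one]
    · refine ⟨1 + k, ?_⟩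
      rw [lv_true, zpow_add, zpow_one]

private theorem pw_mk_toWord {S : Type*} (inst : DecidableEq S) (x : FreeGroup S) :
    FreeGroup.mk (@FreeGroup.toWord S inst x) = x := @FreeGroup.mk_toWord S inst x

private theorem pw_toWord_one {S : Type*} (inst : DecidableEq S) :
    @FreeGroup.toWord S inst 1 = [] := @FreeGroup.toWord_one S inst

/-- the inner relators are words in one class of ends -/
theorem pw_mono : (PW a alt).Mono ((PW a alt).inn fs) := by
  rintro ρ ⟨b, hb1, hb2⟩
  rcases b with b | t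
  · right
    refine ⟨Sum.inl b, fun s hs => ?_⟩
    have h1 : lcl s.1 = Sum.inl b := hb1 s hs
    obtain ⟨y | t, c⟩ := s
    · have h2 : y.1 = b := Sum.inl.inj h1
      subst h2
      exact ⟨rfl, rfl⟩
    · cases h1
  · left
    have h1 : ∀ s ∈ @FreeGroup.toWord _ (fun a b => Classical.propDecidable (a = b)) ρ,
        s.1 = Sum.inr t := by
      intro s hs
      have h2 : lcl s.1 = Sum.inr t := hb1 s hs
      obtain ⟨y | t', c⟩ := s
      · cases h2
      · have h3 : t' = t := Sum.inr.inj h2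
        rw [h3]
    obtain ⟨k, hk⟩ := pw_single (Sum.inr t) _ h1
    rw [pw_mk_toWord] at hk
    have h4 : FreeGroup.lift (fs (H := H) (Sum.inr t)) ρ = gz.{u} ^ k := by
      rw [hk, map_zpow, FreeGroup.lift_apply_of]
      congr 1
      change (if t = t then gz else 1) = gz
      rw [if_pos rfl]
    have h5 : gz.{u} ^ k = 1 := h4.symm.trans hb2
    have h6 : k = 0 := by
      have h7 := congrArg (fun y : ULift.{u} (Multiplicative ℤ) => Multiplicative.toAdd y.down) h5
      simpa [gz] using h7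
    have h7 : ρ = 1 := by rw [hk, h6, zpow_zero]
    rw [h7, pw_toWord_one]

private theorem pw_aux {X : Type*} [DecidableEq X] (x y z : X) (s : X × Bool)
    (hs : s ∈ (FreeGroup.of x * FreeGroup.of y * (FreeGroup.of z)⁻¹).toWord) :
    s.1 = x ∨ s.1 = y ∨ s.1 = z := by
  have h1 := (FreeGroup.toWord_mul_sublist (FreeGroup.of x * FreeGroup.of y)
    (FreeGroup.of z)⁻¹).subset hs
  rw [List.mem_append] at h1
  rcases h1 with h1 | h1
  · have h2 := (FreeGroup.toWord_mul_sublist (FreeGroup.of x) (FreeGroup.of y)).subset h1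
    rw [List.mem_append, FreeGroup.toWord_of, FreeGroup.toWord_of] at h2
    rcases h2 with h2 | h2
    · rw [List.mem_singleton.1 h2]
      exact Or.inl rfl
    · rw [List.mem_singleton.1 h2]
      exact Or.inr (Or.inl rfl)
  · rw [FreeGroup.toWord_inv, FreeGroup.toWord_of] at h1
    have h3 : s = (z, false) := by
      simpa [FreeGroup.invRev] using h1
    rw [h3]
    exact Or.inr (Or.inr rfl)

theorem pw_ker : (FreeGroup.lift (ev (gH a) (gT a))).ker ≤ Subgroup.normalClosure
    (Set.range fun z => FreeGroup.mk ((PW a alt).relw ((PW a alt).inn fs) z)) := by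
  have hin : ∀ ρ ∈ (PW a alt).inn (fs (H := H) (T := T)), ρ ∈ Subgroup.normalClosure
      (Set.range fun z => FreeGroup.mk ((PW a alt).relw ((PW a alt).inn fs) z)) := by
    intro ρ hρ
    refine Subgroup.subset_normalClosure ⟨Sum.inl ⟨ρ, hρ⟩, ?_⟩
    exact @FreeGroup.mk_toWord _ (fun a b => Classical.propDecidable (a = b)) ρ
  refine (gt_ker a).trans (Subgroup.normalClosure_le_normal ?_)
  rintro _ ⟨z, rfl⟩
  rcases z with ⟨b, h, h'⟩ | e
  · have h1 : lrel a (Sum.inl ⟨b, h, h'⟩) ∈ (PW a alt).inn fs := by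
      refine ⟨Sum.inl b, ?_, ?_⟩
      · intro s hs
        rcases @pw_aux _ (fun a b => Classical.propDecidable (a = b)) _ _ _ s hs with h1 | h1 | h1
        · rw [h1]
          rfl
        · rw [h1]
          rfl
        · rw [h1]
          rfl
      · change FreeGroup.lift (fs (H := H) (T := T) (Sum.inl b)) (FreeGroup.of (Sum.inl ⟨b, h⟩) *
          FreeGroup.of (Sum.inl ⟨b, h'⟩) * (FreeGroup.of (Sum.inl ⟨b, h * h'⟩))⁻¹) = 1
        rw [map_mul, map_mul, map_inv, FreeGroup.lift_apply_of, FreeGroup.lift_apply_of,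
          FreeGroup.lift_apply_of]
        change fv b ⟨b, h⟩ * fv b ⟨b, h'⟩ * (fv b ⟨b, h * h'⟩)⁻¹ = (1 : H b)
        rw [fv_self, fv_self, fv_self]
        exact mul_inv_cancel _
    exact hin _ h1
  · exact Subgroup.subset_normalClosure ⟨Sum.inr e, rfl⟩

/-- the theorem for finitely many groups, free letters and words, if reduced graphs have no essential vertices -/
theorem colN [Fintype I] [Fintype T] [Fintype E] (hH : ∀ b, LocallyIndicable (H b))
    (hne : (PW a alt).NoEss fs) :
    LocallyIndicable (GT a) ∧ ∀ b, Function.Injective (gH a b) := by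
  have hbase := OW.baseN (PW a alt) (li_qs hH) (f := fs) (pw_mono a alt) hne
    (g := ev (gH a) (gT a)) (hs (gH a) (gT a)) (hs_fs (gH a) (gT a))
    (fun e => by
      change FreeGroup.lift (ev (gH a) (gT a)) (FreeGroup.mk (List.ofFn (a e))) = 1
      rw [wval_lift]
      exact gt_rel a e)
    (gt_surj a) (pw_ker a alt)
  refine ⟨hbase.1, fun b => ?_⟩
  rw [injective_iff_map_eq_one]
  intro h h1
  have h2 := hbase.2 (Sum.inl b) ⟨Sum.inl b, by
      rintro ⟨y | t, c⟩ hy
      · have h3 : y.1 = b := Sum.inl.inj hy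
        subst h3
        rfl
      · cases hy⟩ (FreeGroup.of (Sum.inl ⟨b, h⟩)) (by
    intro t ht
    have h3 : ∀ (inst : DecidableEq (Ltr H T)) (x : Ltr H T),
        @FreeGroup.toWord _ inst (FreeGroup.of x) = [(x, true)] :=
      fun inst x => @FreeGroup.toWord_of _ inst x
    rw [h3, List.mem_singleton] at ht
    rw [ht]
    rfl)
    (by rw [FreeGroup.lift_apply_of]; exact h1)
  rw [FreeGroup.lift_apply_of] at h2
  change fv b ⟨b, h⟩ = (1 : H b) at h2
  rw [fv_self] at h2
  exact h2

/-- the theorem for finitely many groups, free letters and words -/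
theorem colH [Fintype I] [Fintype T] [Fintype E] (hH : ∀ b, LocallyIndicable (H b))
    {L : Type w'} [Group L] (hL : LocallyIndicable L) (χ : ∀ b, H b →* L) (σ : T → L)
    (hχ : ∀ e, wval χ σ (a e) = 1)
    (hCv : ∀ S : Finset L, ∃ (O : Type) (_ : Fintype O) (s : O → Ltr H T → L → Bool)
      (w : (Σ e : E, Fin (m e + 1)) → L → ℝ) (α : I ⊕ T → O → L → ℝ) (lam : Ltr H T → L → ℝ),
      (PW a alt).CvH fs (ev χ σ) S s w α lam) :
    LocallyIndicable (GT a) ∧ ∀ b, Function.Injective (gH a b) := by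
  refine colN a alt hH ?_
  refine OW.noEssH _ (li_qs hH) hL (hs χ σ) (η := ev χ σ) (hs_fs χ σ) (fun e => ?_) hCv
  change FreeGroup.lift (ev χ σ) (FreeGroup.mk (List.ofFn (a e))) = 1
  rw [wval_lift]
  exact hχ e

end

end Pool.Agent.WhtLI
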