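import Pool.Agent.Lib.GogLI.KMain

/-!
# Relative sectional curvature with heights : definitions

(helper62, problem MP_cf50d6_gt; a version of `Lib/InjLI` by helper18 in which the initial and terminal ends of free letters are
different vertices of the graphs of corners)

`LG W X` (finite folded labelled graph), `Step`, `Walk`, `Conn`, `trSum`, `Zc`, `ext0`, `PotIn`, `comps`, `LocallyIndicable` come from
the libraries of helper98 and helper81.
-/

set_option autoImplicit false

open scoped Classical

namespace Pool.Agent.WhtLI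

open Pool.Agent.LIA

universe u v

/-- words with letters `x : X` in blocks `cl x : I`; the ends of the letters are in classes in `J`: `(x, true)` is the initial
end of `x`, `(x, false)` the terminal end; the two ends at a corner are in different classes -/
structure OW (X : Type u) (I J E : Type) where
  cl : X → I
  ec : X × Bool → J
  hec : ∀ ε ε', ec ε = ec ε' → cl ε.1 = cl ε'.1
  m : E → ℕ
  a : ∀ e, Fin (m e + 1) → X × Bool
  alt : ∀ e c, ec (linv (a e c)) ≠ ec (a e (c + 1))

/-- the value of a cochain at a step -/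
def vl {W X : Type*} (c : W × X × W → ℚ) (p : W) (l : X × Bool) (q : W) : ℚ :=
  if l.2 then c (p, l.1, q) else - c (q, l.1, p)

/-- a graph is connected: a nonempty set of vertices closed under the edges is everything -/
def Cn {W X : Type*} (Γ : LG W X) : Prop :=
  ∀ S : Set W, S.Nonempty → (∀ p x q, (p, x, q) ∈ Γ.F → (p ∈ S ↔ q ∈ S)) → ∀ w, w ∈ S

/-- `x` or its inverse -/
def sg {G : Type*} [Group G] (x : G) (t : Bool) : G := if t then x else x⁻¹

namespace OW

variable {X : Type u} {I J E : Type} {W : Type*} (P : OW X I J E)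

/-- the outer relator `e` can be read around the closed walk `q` -/
def Poly (Γ : LG W X) (e : E) (q : Fin (P.m e + 1) → W) : Prop :=
  ∀ c, Γ.Step (q c) (P.a e c) (q (c + 1))

/-- the corners of the outer relators: the corner `c` is between the letters `c - 1` and `c` -/
abbrev Cor : Type := Σ e : E, Fin (P.m e + 1)

/-- the end at the corner of the letter after it -/
def nxt (κ : P.Cor) : X × Bool := P.a κ.1 κ.2

/-- the end at the corner of the letter before it -/
def prv (κ : P.Cor) : X × Bool := linv (P.a κ.1 (κ.2 - 1))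

/-- one of the ends at the corner is in the class `j` -/
def Iv (κ : P.Cor) (j : J) : Prop := P.ec (P.nxt κ) = j ∨ P.ec (P.prv κ) = j

/-- exactly one of the two classes of the corner is in `U` -/
def Cr (κ : P.Cor) (U : Finset J) : Prop := ¬ (P.ec (P.nxt κ) ∈ U ↔ P.ec (P.prv κ) ∈ U)

/-- the corner `κ` occurs at the vertex `p` -/
def At (Γ : LG W X) (p : W) (κ : P.Cor) : Prop := ∃ q, P.Poly Γ κ.1 q ∧ q κ.2 = p

/-- all ends of letters of each element of `R` are in the same class -/
def Mono (R : Set (FreeGroup X)) : Prop :=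
  ∀ ρ ∈ R, ρ.toWord = [] ∨ ∃ j, ∀ s ∈ ρ.toWord, P.ec s = j ∧ P.ec (linv s) = j

/-- every rational cochain whose sums along the closed walks with words in `R` and along the outer relators vanish is a
coboundary -/
def Acyc (R : Set (FreeGroup X)) (Γ : LG W X) : Prop :=
  ∀ c : W × X × W → ℚ, (∀ ρ ∈ R, ∀ v, Γ.Walk v ρ.toWord v → Γ.trSum c v ρ.toWord = 0) →
    (∀ e q, P.Poly Γ e q → ∑ i, vl c (q i) (P.a e i) (q (i + 1)) = 0) →
    ∃ h : W → ℚ, ∀ p x q, (p, x, q) ∈ Γ.F → c (p, x, q) = h q - h p

/-- a potential in the group `G` -/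
def PotG {G : Type*} [Group G] (g : X → G) (Γ : LG W X) : Prop :=
  ∃ φ : W → G, ∀ p x q, (p, x, q) ∈ Γ.F → φ q = φ p * g x

/-- the block `b` has only one class of ends -/
def One (b : I) : Prop := ∃ j, ∀ ε : X × Bool, P.cl ε.1 = b → P.ec ε = j

/-- for each block `b` with one class of ends a potential of the edges of the block `b` in the group `Q b` -/
def PotB {Q : I → Type v} [∀ b, Group (Q b)] (f : ∀ b, X → Q b) (Γ : LG W X) : Prop :=
  ∀ b, P.One b → ∃ φ : W → Q b, ∀ p x q, (p, x, q) ∈ Γ.F → P.cl x = b → φ q = φ p * f b x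

/-- the inner relators of the block `b` -/
def innb {Q : I → Type v} [∀ b, Group (Q b)] (f : ∀ b, X → Q b) (b : I) : Set (FreeGroup X) :=
  {ρ | (∀ s ∈ ρ.toWord, P.cl s.1 = b) ∧ FreeGroup.lift (f b) ρ = 1}

/-- the inner relators -/
def inn {Q : I → Type v} [∀ b, Group (Q b)] (f : ∀ b, X → Q b) : Set (FreeGroup X) :=
  {ρ | ∃ b, ρ ∈ P.innb f b}

/-- all relators as words -/
noncomputable def relw (R : Set (FreeGroup X)) : ↥R ⊕ E → List (X × Bool)
  | Sum.inl ρ => ρ.1.toWord
  | Sum.inr e => List.ofFn (P.a e)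

/-- the graph of the edges of the block `b` -/
noncomputable def bg (Γ : LG W X) (b : I) : LG W X where
  F := Γ.F.filter fun e => P.cl e.2.1 = b
  det h h' := Γ.det (Finset.mem_filter.1 h).1 (Finset.mem_filter.1 h').1
  cod h h' := Γ.cod (Finset.mem_filter.1 h).1 (Finset.mem_filter.1 h').1

theorem mem_bg {Γ : LG W X} {b : I} {p q : W} {x : X} :
    (p, x, q) ∈ (P.bg Γ b).F ↔ (p, x, q) ∈ Γ.F ∧ P.cl x = b := by
  unfold bg
  exact Finset.mem_filter

/-- the number of components of the graph of the block `b` with a potential in `Q b` -/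
noncomputable def good [Fintype W] {Q : I → Type v} [∀ b, Group (Q b)] (f : ∀ b, X → Q b)
    (Γ : LG W X) (b : I) : ℕ :=
  ((P.bg Γ b).comps.filter fun C => (P.bg Γ b).PotIn (f b) C).card

/-- the outer polygons -/
noncomputable def sq [Fintype E] [Fintype W] (Γ : LG W X) :
    Finset (Σ e : E, Fin (P.m e + 1) → W) :=
  Finset.univ.filter fun σ => P.Poly Γ σ.1 σ.2

/-- the measure of the induction -/
noncomputable def mu [Fintype E] [Fintype W] (Γ : LG W X) : ℕ := Γ.F.card + (P.sq Γ).card

/-- the corners at `p` -/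
noncomputable def cor [Fintype E] (Γ : LG W X) (p : W) : Finset P.Cor :=
  Finset.univ.filter fun κ => P.At Γ p κ

/-- the classes present at `p` -/
noncomputable def Jp [Fintype J] (Γ : LG W X) (p : W) : Finset J :=
  Finset.univ.filter fun j => ∃ ε v, Γ.Step p ε v ∧ P.ec ε = j

/-- the block `b` is present at `p` -/
def Bp (Γ : LG W X) (p : W) (b : I) : Prop := ∃ ε v, Γ.Step p ε v ∧ P.cl ε.1 = b

/-- at least two classes are present at `p` -/
def Ess [Fintype J] (Γ : LG W X) (p : W) : Prop := 2 ≤ (P.Jp Γ p).card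

/-- the corners at each vertex are 2-connected -/
def Rdc [Fintype J] [Fintype E] (Γ : LG W X) : Prop :=
  ∀ p, ∀ U : Finset J, U.Nonempty → U ⊂ P.Jp Γ p → 2 ≤ ((P.cor Γ p).filter fun κ => P.Cr κ U).card

/-- the classes of a finite set of corners -/
noncomputable def Bk (K : Finset P.Cor) : Finset J :=
  K.image (fun κ => P.ec (P.nxt κ)) ∪ K.image fun κ => P.ec (P.prv κ)

/-- a nonempty finite set of corners which is 2-edge-connected as a graph on its classes: for every nonempty proper subset
`U` of its classes at least two of its corners have exactly one of their two classes in `U` -/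
def TwoC (K : Finset P.Cor) : Prop :=
  K.Nonempty ∧ ∀ U : Finset J, U.Nonempty → U ⊂ P.Bk K → 2 ≤ (K.filter fun κ => P.Cr κ U).card

/-! ## splitting a vertex -/

/-- the position of an end in the class `j` at `q` after splitting `p`: the ends of the classes in `U` at `p` are moved to
`none` -/
noncomputable def mv (p : W) (U : Finset J) (q : W) (j : J) : Option W :=
  if q = p ∧ j ∈ U then none else some q

/-- the projection of the split graph -/
def pr (p : W) (y : Option W) : W := y.getD p

theorem pr_mv (p : W) (U : Finset J) (q : W) (j : J) : pr p (mv p U q j) = q := by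
  unfold mv pr
  split_ifs with h
  · exact h.1.symm
  · rfl

/-- the split graph -/
noncomputable def spl (Γ : LG W X) (p : W) (U : Finset J) : LG (Option W) X where
  F := Γ.F.image fun e => (mv p U e.1 (P.ec (e.2.1, true)), e.2.1, mv p U e.2.2 (P.ec (e.2.1, false)))
  det := by
    intro u s v v' h h'
    simp only [Finset.mem_image, Prod.exists, Prod.mk.injEq] at h h'
    obtain ⟨a, x, c, h1, h2, rfl, h3⟩ := h
    obtain ⟨a', x', c', h1', h2', h4, h3'⟩ := h'
    subst h4
    have h5 : a = a' := by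
      rw [← pr_mv p U a (P.ec (x', true)), h2, ← h2', pr_mv]
    subst h5
    rw [← h3, ← h3', Γ.det h1 h1']
  cod := by
    intro u u' s v h h'
    simp only [Finset.mem_image, Prod.exists, Prod.mk.injEq] at h h'
    obtain ⟨a, x, c, h1, h2, rfl, h3⟩ := h
    obtain ⟨a', x', c', h1', h2', h4, h3'⟩ := h'
    subst h4
    have h5 : c = c' := by
      rw [← pr_mv p U c (P.ec (x', false)), h3, ← h3', pr_mv]
    subst h5
    rw [← h2, ← h2', Γ.cod h1 h1']

/-- the cochain on `Γ` given by a cochain on the split graph -/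
noncomputable def pb (p : W) (U : Finset J) (c : Option W × X × Option W → ℚ) :
    W × X × W → ℚ :=
  fun e => c (mv p U e.1 (P.ec (e.2.1, true)), e.2.1, mv p U e.2.2 (P.ec (e.2.1, false)))

/-! ## heights -/

end OW

/-- the height of the initial end of the letter with the end `ε` at the height `g` -/
def hl {X L : Type*} [Group L] (η : X → L) (ε : X × Bool) (g : L) : L :=
  if ε.2 then g else g * (η ε.1)⁻¹

/-- the sign of the end -/
def sgn {X : Type*} (ε : X × Bool) : ℝ := if ε.2 then 1 else -1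

namespace OW

variable {X : Type u} {I J E : Type} {W : Type*} (P : OW X I J E) {L : Type*} [Group L]

/-- `h` gives heights of the corners of the word `e` -/
def Ht (η : X → L) (e : E) (h : Fin (P.m e + 1) → L) : Prop :=
  ∀ c, h (c + 1) = h c * sg (η (P.a e c).1) (P.a e c).2

/-- if the corner `κ` is at the height `g` then the corners of its word have heights in `S` -/
def Fit (η : X → L) (S : Finset L) (κ : P.Cor) (g : L) : Prop :=
  ∃ h, P.Ht η κ.1 h ∧ h κ.2 = g ∧ ∀ c, h c ∈ S

/-- the ends of letters at the corners in `K` -/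
noncomputable def endK (K : Finset P.Cor) : Finset (X × Bool) :=
  K.image P.nxt ∪ K.image P.prv

/-- there is an up end of the block `b` for the signs `s` of the letters at the heights of their initial ends -/
def UpH (η : X → L) (K : Finset P.Cor) (b : I) (s : X → L → Bool) (g : L) : Prop :=
  ∃ ε ∈ P.endK K, P.cl ε.1 = b ∧ s ε.1 (hl η ε g) = ε.2

/-- an up step of the block `b` -/
def USt {Q : I → Type v} [∀ b, Group (Q b)] (f : ∀ b, X → Q b) (η : X → L) (S : Finset L)
    (b : I) (s : X → L → Bool) (u v : L × Q b) : Prop :=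
  u.1 ∈ S ∧ v.1 ∈ S ∧ ∃ e c, P.cl (P.a e c).1 = b ∧
    ((s (P.a e c).1 u.1 = true ∧ v = (u.1 * η (P.a e c).1, u.2 * f b (P.a e c).1)) ∨
      (s (P.a e c).1 v.1 = false ∧ u = (v.1 * η (P.a e c).1, v.2 * f b (P.a e c).1)))

/-- the curvature condition with heights in `S` -/
structure CvH {O : Type} [Fintype I] [Fintype O] {Q : I → Type v} [∀ b, Group (Q b)]
    (f : ∀ b, X → Q b) (η : X → L) (S : Finset L) (s : O → X → L → Bool) (w : P.Cor → L → ℝ)
    (α : I → O → L → ℝ) (lam : X → L → ℝ) : Prop where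
  nonneg : ∀ b o g, 0 ≤ α b o g
  le_one : ∀ b g, ∑ o, α b o g ≤ 1
  inv : ∀ b o g x, P.cl x = b → α b o (g * η x) = α b o g
  pos : ∀ b o (u : L × Q b), α b o u.1 ≠ 0 → ¬ Relation.TransGen (P.USt f η S b (s o)) u u
  wt : ∀ e h, P.Ht η e h → (∀ c, h c ∈ S) → 1 ≤ ∑ c, w ⟨e, c⟩ (h c)
  curv : ∀ g ∈ S, ∀ K : Finset P.Cor, P.TwoC K → (∀ κ ∈ K, P.Fit η S κ g) →
    ∑ κ ∈ K, w κ g + 1 ≤ (∑ b, ∑ o, if P.UpH η K b (s o) g then α b o g else 0) +
      ∑ ε ∈ P.endK K, sgn ε * lam ε.1 (hl η ε g)

end OW

/-- the part of a graph on a set of vertices -/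
noncomputable def sub {W X : Type*} (Γ : LG W X) (T : Set W) : LG T X where
  F := (Γ.F.attach.filter fun e => e.1.1 ∈ T ∧ e.1.2.2 ∈ T).attach.image fun e =>
    (⟨e.1.1.1, (Finset.mem_filter.1 e.2).2.1⟩, e.1.1.2.1, ⟨e.1.1.2.2, (Finset.mem_filter.1 e.2).2.2⟩)
  det := by
    intro u s v v' h h'
    simp only [Finset.mem_image, Finset.mem_attach, true_and, Subtype.exists, Prod.mk.injEq,
      Subtype.ext_iff] at h h'
    obtain ⟨a, ha, h1, h2, rfl, h3⟩ := h
    obtain ⟨a', ha', h1', h2', h4, h3'⟩ := h'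
    apply Subtype.ext
    rw [← h3, ← h3']
    have e1 : (a.1, a.2.1, a.2.2) ∈ Γ.F := ha
    have e2 : (a'.1, a'.2.1, a'.2.2) ∈ Γ.F := ha'
    rw [h4, h2', ← h2] at e2
    exact Γ.det e1 e2
  cod := by
    intro u u' s v h h'
    simp only [Finset.mem_image, Finset.mem_attach, true_and, Subtype.exists, Prod.mk.injEq,
      Subtype.ext_iff] at h h'
    obtain ⟨a, ha, h1, h2, rfl, h3⟩ := h
    obtain ⟨a', ha', h1', h2', h4, h3'⟩ := h'
    apply Subtype.ext
    rw [← h2, ← h2']
    have e1 : (a.1, a.2.1, a.2.2) ∈ Γ.F := ha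
    have e2 : (a'.1, a'.2.1, a'.2.2) ∈ Γ.F := ha'
    rw [h4, h3', ← h3] at e2
    exact Γ.cod e1 e2

theorem mem_sub {W X : Type*} {Γ : LG W X} {T : Set W} {u v : T} {x : X} :
    (u, x, v) ∈ (sub Γ T).F ↔ (u.1, x, v.1) ∈ Γ.F := by
  simp only [sub, Finset.mem_image, Finset.mem_attach, true_and, Subtype.exists, Prod.mk.injEq,
    Subtype.ext_iff]
  constructor
  · rintro ⟨a, ha, h1, h2, rfl, h3⟩
    have e1 : (a.1, a.2.1, a.2.2) ∈ Γ.F := ha
    rw [h2, h3] at e1
    exact e1
  · intro h
    exact ⟨_, h, Finset.mem_filter.2 ⟨Finset.mem_attach _ _, u.2, v.2⟩, rfl, rfl, rfl⟩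

end Pool.Agent.WhtLI
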