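import Pool.Agent.Lib.WhtLI.Par

/-!
# JpB : corners and classes of ends at a vertex

(helper62, problem MP_cf50d6_gt; as in `Lib/InjLI` by helper18 and the seats of inj)
-/

set_option autoImplicit false

open scoped Classical

namespace Pool.Agent.WhtLI

open Pool.Agent.LIA

universe u v

namespace OW

variable {X : Type u} {I J E : Type} {W : Type*} (P : OW X I J E)

theorem step_linv {Γ : LG W X} {p q : W} {l : X × Bool} (h : Γ.Step p l q) :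
    Γ.Step q (linv l) p := by
  obtain ⟨x, b⟩ := l
  unfold LG.Step at h ⊢
  cases b
  · simpa [linv] using h
  · simpa [linv] using h

theorem mem_jp [Fintype J] {Γ : LG W X} {p : W} {j : J} :
    j ∈ P.Jp Γ p ↔ ∃ ε v, Γ.Step p ε v ∧ P.ec ε = j := by
  unfold Jp
  rw [Finset.mem_filter]
  exact and_iff_right (Finset.mem_univ _)

theorem step_jp [Fintype J] {Γ : LG W X} {p q : W} {l : X × Bool} (h : Γ.Step p l q) :
    P.ec l ∈ P.Jp Γ p ∧ P.ec (linv l) ∈ P.Jp Γ q :=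
  ⟨P.mem_jp.2 ⟨l, q, h, rfl⟩, P.mem_jp.2 ⟨linv l, p, step_linv h, rfl⟩⟩

theorem poly_prv {Γ : LG W X} {e : E} {q : Fin (P.m e + 1) → W} (hq : P.Poly Γ e q)
    (i : Fin (P.m e + 1)) : Γ.Step (q i) (P.prv ⟨e, i⟩) (q (i - 1)) := by
  have h1 := step_linv (hq (i - 1))
  rw [sub_add_cancel] at h1
  exact h1

theorem at_jp [Fintype J] {Γ : LG W X} {p : W} {κ : P.Cor} (h : P.At Γ p κ) :
    P.ec (P.nxt κ) ∈ P.Jp Γ p ∧ P.ec (P.prv κ) ∈ P.Jp Γ p := by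
  obtain ⟨q, hq, rfl⟩ := h
  exact ⟨(P.step_jp (hq κ.2)).1, (P.step_jp (P.poly_prv hq κ.2)).1⟩

theorem iv_ne (κ : P.Cor) : P.ec (P.prv κ) ≠ P.ec (P.nxt κ) := by
  have h := P.alt κ.1 (κ.2 - 1)
  rw [sub_add_cancel] at h
  exact h

theorem at_ess [Fintype J] {Γ : LG W X} {p : W} {κ : P.Cor} (h : P.At Γ p κ) : P.Ess Γ p := by
  have h1 := P.at_jp h
  exact Finset.one_lt_card.2 ⟨_, h1.2, _, h1.1, P.iv_ne κ⟩

theorem mem_cor [Fintype E] {Γ : LG W X} {p : W} {κ : P.Cor} :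
    κ ∈ P.cor Γ p ↔ P.At Γ p κ := by
  unfold cor
  rw [Finset.mem_filter]
  exact and_iff_right (Finset.mem_univ _)

theorem cor_empty [Fintype J] [Fintype E] {Γ : LG W X} {p : W} (h : ¬ P.Ess Γ p) :
    P.cor Γ p = ∅ := by
  rw [Finset.eq_empty_iff_forall_notMem]
  intro κ hκ
  exact h (P.at_ess (P.mem_cor.1 hκ))

theorem exists_iv [Fintype J] [Fintype E] {Γ : LG W X} (hR : P.Rdc Γ) {p : W} (h : P.Ess Γ p)
    {j : J} (hb : j ∈ P.Jp Γ p) : ∃ κ, P.At Γ p κ ∧ P.Iv κ j := by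
  have h1 : ({j} : Finset J) ⊂ P.Jp Γ p := by
    rw [Finset.ssubset_iff_subset_ne]
    refine ⟨Finset.singleton_subset_iff.2 hb, fun h2 => ?_⟩
    unfold Ess at h
    rw [← h2, Finset.card_singleton] at h
    omega
  have h3 := hR p {j} (Finset.singleton_nonempty j) h1
  have h4 : 0 < ((P.cor Γ p).filter fun κ => P.Cr κ {j}).card := by omega
  obtain ⟨κ, hκ⟩ := Finset.card_pos.1 h4
  rw [Finset.mem_filter, P.mem_cor] at hκ
  refine ⟨κ, hκ.1, ?_⟩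
  have h5 := hκ.2
  unfold Cr at h5
  rw [Finset.mem_singleton, Finset.mem_singleton] at h5
  unfold Iv
  tauto

theorem cor_bk [Fintype J] [Fintype E] {Γ : LG W X} (hR : P.Rdc Γ) {p : W} (h : P.Ess Γ p) :
    P.Bk (P.cor Γ p) = P.Jp Γ p := by
  ext j
  unfold Bk
  rw [Finset.mem_union, Finset.mem_image, Finset.mem_image]
  constructor
  · rintro (⟨κ, hκ, rfl⟩ | ⟨κ, hκ, rfl⟩)
    · exact (P.at_jp (P.mem_cor.1 hκ)).1
    · exact (P.at_jp (P.mem_cor.1 hκ)).2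
  · intro hb
    obtain ⟨κ, hκ, hI⟩ := P.exists_iv hR h hb
    rcases hI with hI | hI
    · exact Or.inl ⟨κ, P.mem_cor.2 hκ, hI⟩
    · exact Or.inr ⟨κ, P.mem_cor.2 hκ, hI⟩

theorem cor_two [Fintype J] [Fintype E] {Γ : LG W X} (hR : P.Rdc Γ) {p : W} (h : P.Ess Γ p) :
    P.TwoC (P.cor Γ p) := by
  constructor
  · have h1 : (P.Jp Γ p).Nonempty := by
      rw [← Finset.card_pos]
      unfold Ess at h
      omega
    obtain ⟨b, hb⟩ := h1
    obtain ⟨κ, hκ, _⟩ := P.exists_iv hR h hb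
    exact ⟨κ, P.mem_cor.2 hκ⟩
  · intro U hU hU2
    rw [P.cor_bk hR h] at hU2
    exact hR p U hU hU2

/-- a vertex without edges is the only vertex -/
theorem jp_nonempty [Fintype J] {Γ : LG W X} (hC : Cn Γ) (hE : ∃ p, P.Ess Γ p) (p : W) :
    (P.Jp Γ p).Nonempty := by
  by_contra hne
  rw [Finset.not_nonempty_iff_eq_empty] at hne
  obtain ⟨p', hp'⟩ := hE
  have h1 : p' ∈ ({p} : Set W) := by
    refine hC {p} (Set.singleton_nonempty p) ?_ p'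
    intro u x v huv
    have hst : Γ.Step u (x, true) v := by
      rw [LG.step_true]
      exact huv
    constructor
    · intro hu
      exfalso
      have h2 := (P.step_jp hst).1
      rw [Set.mem_singleton_iff.1 hu, hne] at h2
      exact Finset.notMem_empty _ h2
    · intro hv
      exfalso
      have h2 := (P.step_jp hst).2
      rw [Set.mem_singleton_iff.1 hv, hne] at h2
      exact Finset.notMem_empty _ h2
  rw [Set.mem_singleton_iff] at h1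
  unfold Ess at hp'
  rw [h1, hne, Finset.card_empty] at hp'
  omega

theorem bp_edge {Γ : LG W X} {u v : W} {x : X} (h : (u, x, v) ∈ Γ.F) :
    P.Bp Γ u (P.cl x) ∧ P.Bp Γ v (P.cl x) := by
  have hst : Γ.Step u (x, true) v := by
    rw [LG.step_true]
    exact h
  exact ⟨⟨_, _, hst, rfl⟩, ⟨_, _, step_linv hst, rfl⟩⟩

/-- at a vertex which is not essential there is only one block -/
theorem bp_unique [Fintype J] {Γ : LG W X} {p : W} (h : ¬ P.Ess Γ p) {b b' : I}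
    (hb : P.Bp Γ p b) (hb' : P.Bp Γ p b') : b = b' := by
  obtain ⟨ε, v, h1, rfl⟩ := hb
  obtain ⟨ε', v', h1', rfl⟩ := hb'
  apply P.hec
  by_contra hne
  exact h (Finset.one_lt_card.2 ⟨_, P.mem_jp.2 ⟨ε, v, h1, rfl⟩, _, P.mem_jp.2 ⟨ε', v', h1', rfl⟩,
    hne⟩)

theorem mem_bk {K : Finset P.Cor} {j : J} :
    j ∈ P.Bk K ↔ ∃ κ ∈ K, j = P.ec (P.nxt κ) ∨ j = P.ec (P.prv κ) := by
  unfold Bk
  rw [Finset.mem_union, Finset.mem_image, Finset.mem_image]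
  constructor
  · rintro (⟨κ, hκ, rfl⟩ | ⟨κ, hκ, rfl⟩)
    · exact ⟨κ, hκ, Or.inl rfl⟩
    · exact ⟨κ, hκ, Or.inr rfl⟩
  · rintro ⟨κ, hκ, rfl | rfl⟩
    · exact Or.inl ⟨κ, hκ, rfl⟩
    · exact Or.inr ⟨κ, hκ, rfl⟩

theorem mem_endK {K : Finset P.Cor} {ε : X × Bool} :
    ε ∈ P.endK K ↔ ∃ κ ∈ K, ε = P.nxt κ ∨ ε = P.prv κ := by
  unfold endK
  rw [Finset.mem_union, Finset.mem_image, Finset.mem_image]
  constructor
  · rintro (⟨κ, hκ, rfl⟩ | ⟨κ, hκ, rfl⟩)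
    · exact ⟨κ, hκ, Or.inl rfl⟩
    · exact ⟨κ, hκ, Or.inr rfl⟩
  · rintro ⟨κ, hκ, rfl | rfl⟩
    · exact Or.inl ⟨κ, hκ, rfl⟩
    · exact Or.inr ⟨κ, hκ, rfl⟩

theorem end_ess [Fintype J] [Fintype E] {Γ : LG W X} {p : W} {ε : X × Bool}
    (h : ε ∈ P.endK (P.cor Γ p)) : P.Ess Γ p := by
  obtain ⟨κ, h1, -⟩ := P.mem_endK.1 h
  exact P.at_ess (P.mem_cor.1 h1)

/-- at an essential vertex every block present is the block of an end of a corner -/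
theorem bp_end [Fintype J] [Fintype E] {Γ : LG W X} (hR : P.Rdc Γ) {p : W} (h : P.Ess Γ p) {b : I}
    (hb : P.Bp Γ p b) : ∃ ε ∈ P.endK (P.cor Γ p), P.cl ε.1 = b := by
  obtain ⟨ε, v, h1, rfl⟩ := hb
  obtain ⟨κ, hκ, hI⟩ := P.exists_iv hR h (P.mem_jp.2 ⟨ε, v, h1, rfl⟩)
  rcases hI with hI | hI
  · exact ⟨_, P.mem_endK.2 ⟨κ, P.mem_cor.2 hκ, Or.inl rfl⟩, P.hec _ _ hI⟩
  · exact ⟨_, P.mem_endK.2 ⟨κ, P.mem_cor.2 hκ, Or.inr rfl⟩, P.hec _ _ hI⟩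

/-- the other end of the edge -/
theorem end_step [Fintype E] {Γ : LG W X} {p : W} {ε : X × Bool}
    (h : ε ∈ P.endK (P.cor Γ p)) :
    ∃ v, Γ.Step p ε v ∧ linv ε ∈ P.endK (P.cor Γ v) := by
  obtain ⟨κ, hκ, h1⟩ := P.mem_endK.1 h
  obtain ⟨q, hq, rfl⟩ : P.At Γ p κ := P.mem_cor.1 hκ
  rcases h1 with rfl | rfl
  · refine ⟨q (κ.2 + 1), hq κ.2, P.mem_endK.2 ⟨⟨κ.1, κ.2 + 1⟩, ?_, Or.inr ?_⟩⟩
    · exact P.mem_cor.2 ⟨q, hq, rfl⟩
    · rw [P.prv_succ]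
      rfl
  · refine ⟨q (κ.2 - 1), P.poly_prv hq κ.2, P.mem_endK.2 ⟨⟨κ.1, κ.2 - 1⟩, ?_, Or.inl ?_⟩⟩
    · exact P.mem_cor.2 ⟨q, hq, rfl⟩
    · unfold nxt prv
      exact linv_linv' _

end OW

end Pool.Agent.WhtLI
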