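import Pool.Agent.Lib.WhtLI.KOne
import Pool.Agent.Lib.WhtLI.KThr
import Pool.Agent.Lib.WhtLI.JpB

/-!
# NoE : graphs without essential vertices

(helper62, problem MP_cf50d6_gt; as in `Lib/InjLI` by helper18 and the seats of inj)
-/

set_option autoImplicit false

open scoped Classical

namespace Pool.Agent.WhtLI

open Pool.Agent.LIA

universe u v

namespace OW

variable {X : Type u} {I J E : Type} {W : Type*} (P : OW X I J E)

theorem pot_of_not_ess [Fintype I] [Fintype J] [Fintype E] [Fintype W] [Nonempty W]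
    {Q : I → Type v} [∀ b, Group (Q b)] (hQ : ∀ b, LocallyIndicable (Q b)) {f : ∀ b, X → Q b}
    {G : Type*} [Group G] {g : X → G} (θ : ∀ b, Q b →* G)
    (hθ : ∀ x, θ (P.cl x) (f (P.cl x) x) = g x) {Γ : LG W X} (hC : Cn Γ)
    (hA : P.Acyc (P.inn f) Γ) (hN : ¬ ∃ p, P.Ess Γ p) : PotG g Γ ∧ P.PotB f Γ := by
  by_cases hF : Γ.F = ∅
  · refine ⟨⟨fun _ => 1, fun p x q h => ?_⟩, fun b _ => ⟨fun _ => 1, fun p x q h => ?_⟩⟩
    · rw [hF] at h
      exact absurd h (Finset.notMem_empty _)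
    · rw [hF] at h
      exact absurd h (Finset.notMem_empty _)
  obtain ⟨⟨u₀, x₀, v₀⟩, h₀⟩ := Finset.nonempty_iff_ne_empty.2 hF
  have key : ∀ (p : W) (b b' : I), P.Bp Γ p b → P.Bp Γ p b' → b = b' := fun p b b' hb hb' =>
    P.bp_unique (fun h => hN ⟨p, h⟩) hb hb'
  obtain ⟨b, hb0⟩ : ∃ b, b = P.cl x₀ := ⟨_, rfl⟩
  have hall : ∀ w, w ∈ {p : W | P.Bp Γ p b} := by
    apply hC
    · refine ⟨u₀, ?_⟩
      show P.Bp Γ u₀ b
      rw [hb0]
      exact (P.bp_edge h₀).1
    · intro p x q h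
      obtain ⟨h1, h2⟩ := P.bp_edge h
      constructor
      · intro hb
        have h3 : b = P.cl x := key p _ _ hb h1
        show P.Bp Γ q b
        rw [h3]
        exact h2
      · intro hb
        have h3 : b = P.cl x := key q _ _ hb h2
        show P.Bp Γ p b
        rw [h3]
        exact h1
  have hcl : ∀ p x q, (p, x, q) ∈ Γ.F → P.cl x = b := fun p x q h =>
    key p _ _ (P.bp_edge h).1 (hall p)
  have hsq : P.sq Γ = ∅ := by
    rw [Finset.eq_empty_iff_forall_notMem]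
    rintro ⟨e, q⟩ h
    have hp : P.Poly Γ e q := (Finset.mem_filter.1 h).2
    exact hN ⟨q 0, P.at_ess (κ := ⟨e, 0⟩) ⟨q, hp, rfl⟩⟩
  have h1 := P.finrank_zc hA
  have h2 := P.finrank_block f Γ b
  have h3 := P.card_le_good hQ f Γ b
  rw [hsq, Finset.card_empty] at h1
  have h4 : 0 < P.good f Γ b := by omega
  obtain ⟨C, hC'⟩ := Finset.card_pos.1 h4
  obtain ⟨hC1, φ, hφ⟩ := Finset.mem_filter.1 hC'
  have hCall : ∀ w, w ∈ (C : Set W) := by
    apply hC
    · exact LG.nonempty_of_mem_comps hC1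
    · intro p x q h
      exact LG.mem_of_edge hC1 (P.mem_bg.2 ⟨h, hcl p x q h⟩)
  have hφ' : ∀ p x q, (p, x, q) ∈ Γ.F → φ q = φ p * f b x := fun p x q h =>
    hφ p x q (P.mem_bg.2 ⟨h, hcl p x q h⟩) (hCall p)
  constructor
  · refine ⟨fun w => θ b (φ w), fun p x q h => ?_⟩
    have h5 : θ b (f b x) = g x := by
      have h6 := hθ x
      rw [hcl p x q h] at h6
      exact h6
    show θ b (φ q) = θ b (φ p) * g x
    rw [hφ' p x q h, map_mul, h5]
  · intro b' _
    by_cases hbb : b' = b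
    · subst hbb
      exact ⟨φ, fun p x q h _ => hφ' p x q h⟩
    · refine ⟨fun _ => 1, fun p x q h hx => ?_⟩
      exact absurd (hx.symm.trans (hcl p x q h)) hbb

end OW

end Pool.Agent.WhtLI
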