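import Pool.Agent.Lib.WhtLI.Defs

/-!
# Par : polygons are determined by one vertex, summation by parts, positions after splitting

(helper62, problem MP_cf50d6_gt; as `Lib/InjLI/Par.lean` by helper18 and the seats of inj)
-/

set_option autoImplicit false

open scoped Classical

namespace Pool.Agent.WhtLI

open Pool.Agent.LIA

universe u v

theorem linv_linv' {X : Type*} (l : X × Bool) : linv (linv l) = l := by
  unfold linv
  simp

namespace OW

variable {X : Type u} {I J E : Type} {W : Type*} (P : OW X I J E)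

theorem prv_succ (e : E) (i : Fin (P.m e + 1)) : P.prv ⟨e, i + 1⟩ = linv (P.a e i) := by
  unfold prv
  simp

theorem poly_unique {Γ : LG W X} {e : E} {q q' : Fin (P.m e + 1) → W} (h : P.Poly Γ e q)
    (h' : P.Poly Γ e q') {i : Fin (P.m e + 1)} (hi : q i = q' i) : q = q' := by
  have key : ∀ n : Fin (P.m e + 1), q (i + n) = q' (i + n) := by
    intro n
    induction n using Fin.induction with
    | zero => simpa using hi
    | succ n ih =>
      have h1 := h (i + n.castSucc)
      have h2 := h' (i + n.castSucc)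
      rw [← ih] at h2
      have h3 := LG.step_det h1 h2
      rw [add_assoc, Fin.coeSucc_eq_succ] at h3
      exact h3
  funext j
  have h5 := key (j - i)
  rw [add_sub_cancel] at h5
  exact h5

theorem mv_eq {p q : W} {U : Finset J} {κ : P.Cor} (h : q = p → ¬ P.Cr κ U) :
    mv p U q (P.ec (P.prv κ)) = mv p U q (P.ec (P.nxt κ)) := by
  unfold mv
  by_cases hq : q = p
  · have h1 := h hq
    unfold Cr at h1
    rw [not_not] at h1
    simp only [hq, true_and, h1]
  · simp only [hq, false_and, if_false]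

theorem mv_ne {p : W} {U : Finset J} {κ : P.Cor} (h : P.Cr κ U) :
    (mv p U p (P.ec (P.prv κ)) = none ∧ mv p U p (P.ec (P.nxt κ)) = some p) ∨
      (mv p U p (P.ec (P.prv κ)) = some p ∧ mv p U p (P.ec (P.nxt κ)) = none) := by
  unfold Cr at h
  unfold mv
  by_cases h1 : P.ec (P.prv κ) ∈ U
  · have h2 : P.ec (P.nxt κ) ∉ U := fun h3 => h ⟨fun _ => h1, fun _ => h3⟩
    left
    simp [h1, h2]
  · have h2 : P.ec (P.nxt κ) ∈ U := by
      by_contra h3
      exact h ⟨fun h4 => absurd h4 h3, fun h4 => absurd h4 h1⟩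
    right
    simp [h1, h2]

/-- the cochain of a function on the split graph -/
noncomputable def eta (k : Option W → ℚ) (p : W) (U : Finset J) : W × X × W → ℚ :=
  fun y => k (mv p U y.2.2 (P.ec (y.2.1, false))) - k (mv p U y.1 (P.ec (y.2.1, true)))

private theorem par_vl (k : Option W → ℚ) (p : W) (U : Finset J) (u v : W) (l : X × Bool) :
    vl (P.eta k p U) u l v = k (mv p U v (P.ec (linv l))) - k (mv p U u (P.ec l)) := by
  obtain ⟨x, b⟩ := l
  unfold vl eta linv
  cases b
  · simp
  · simp

theorem parts (k : Option W → ℚ) (p : W) (U : Finset J) (e : E) (q : Fin (P.m e + 1) → W) :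
    ∑ i, vl (P.eta k p U) (q i) (P.a e i) (q (i + 1)) =
      ∑ i, (k (mv p U (q i) (P.ec (P.prv ⟨e, i⟩))) - k (mv p U (q i) (P.ec (P.nxt ⟨e, i⟩)))) := by
  simp only [par_vl]
  rw [Finset.sum_sub_distrib, Finset.sum_sub_distrib]
  have h1 : ∑ i, k (mv p U (q i) (P.ec (P.prv ⟨e, i⟩))) =
      ∑ i, k (mv p U (q (i + 1)) (P.ec (linv (P.a e i)))) := by
    rw [← Equiv.sum_comp (Equiv.addRight (1 : Fin (P.m e + 1)))
      (fun i => k (mv p U (q i) (P.ec (P.prv ⟨e, i⟩))))]
    refine Finset.sum_congr rfl fun i _ => ?_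
    have h2 : (Equiv.addRight (1 : Fin (P.m e + 1))) i = i + 1 := rfl
    rw [h2, P.prv_succ]
  rw [h1]
  rfl

end OW

end Pool.Agent.WhtLI
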