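import Pool.Agent.Lib.WhtLI.Col

/-!
# ResW : the curvature condition, finite subsystems

(helper62, problem MP_cf50d6_gt)
-/

set_option autoImplicit false

set_option linter.unusedSectionVars false

open scoped Classical

namespace Pool.Agent.WhtLI

open Pool.Agent.LIA

open Pool.Agent.InjLI (fv fv_self)

universe u v w'

section

variable {I T E : Type} {H : I → Type u} [∀ b, Group (H b)] {m : E → ℕ}
  (a : ∀ e, Fin (m e + 1) → Ltr H T × Bool)
  (alt : ∀ e c, lec (linv (a e c)) ≠ lec (a e (c + 1)))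
  {L : Type w'} [Group L] (χ : ∀ b, H b →* L) (σ : T → L)

/-- at the corners in `K` there is an up end of a letter of the block `b` -/
def UpW (K : Finset (Σ e : E, Fin (m e + 1))) (b : I) (s : (Σ b, H b) → L → Bool) (g : L) :
    Prop :=
  ∃ (x : H b) (c : Bool), (Sum.inl ⟨b, x⟩, c) ∈ (PW a alt).endK K ∧
    s ⟨b, x⟩ (hl (ev χ σ) (Sum.inl ⟨b, x⟩, c) g) = c

/-- the contribution of a class of ends -/
noncomputable def cval {O : Type} [Fintype O] (K : Finset (Σ e : E, Fin (m e + 1)))
    (s : O → (Σ b, H b) → L → Bool) (α : I → O → L → ℝ) (g : L) : I ⊕ (T × Bool) → ℝ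
  | Sum.inl b => ∑ o, if UpW a alt χ σ K b (s o) g then α b o g else 0
  | Sum.inr j => if j.2 then 0 else 1

/-- an up step of the block `b` with a letter of a word in `F`, between heights in `S` -/
def UStW (F : Finset E) (S : Finset L) (b : I) (s : (Σ b, H b) → L → Bool) (u v : L × H b) :
    Prop :=
  u.1 ∈ S ∧ v.1 ∈ S ∧ ∃ e ∈ F, ∃ c x, (a e c).1 = Sum.inl ⟨b, x⟩ ∧
    ((s ⟨b, x⟩ u.1 = true ∧ v = (u.1 * χ b x, u.2 * x)) ∨
      (s ⟨b, x⟩ v.1 = false ∧ u = (v.1 * χ b x, v.2 * x)))

/-- the curvature condition for the words in `F` and the heights in `S` -/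
structure CrW (F : Finset E) (S : Finset L) {O : Type} [Fintype O]
    (s : O → (Σ b, H b) → L → Bool) (w : (Σ e : E, Fin (m e + 1)) → L → ℝ) (α : I → O → L → ℝ)
    (lam : Ltr H T → L → ℝ) : Prop where
  nonneg : ∀ b o g, 0 ≤ α b o g
  le_one : ∀ b g, ∑ o, α b o g ≤ 1
  inv : ∀ b o g x, α b o (g * χ b x) = α b o g
  pos : ∀ b o (u : L × H b), α b o u.1 ≠ 0 →
    ¬ Relation.TransGen (UStW a χ F S b (s o)) u u
  wt : ∀ e ∈ F, ∀ h, (PW a alt).Ht (ev χ σ) e h → (∀ c, h c ∈ S) → 1 ≤ ∑ c, w ⟨e, c⟩ (h c)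
  curv : ∀ g ∈ S, ∀ K : Finset (Σ e : E, Fin (m e + 1)), (PW a alt).TwoC K →
    (∀ κ ∈ K, κ.1 ∈ F ∧ (PW a alt).Fit (ev χ σ) S κ g) →
    ∑ κ ∈ K, w κ g + 1 ≤ (∑ j ∈ (PW a alt).Bk K, cval a alt χ σ K s α g j) +
      ∑ ε ∈ (PW a alt).endK K, sgn ε * lam ε.1 (hl (ev χ σ) ε g)

/-! ## finite systems -/

/-- the signs for all blocks -/
def sO {O : Type} (s : O → (Σ b, H b) → L → Bool) : Option O → Ltr H T → L → Bool
  | some o => fun x g => match x with
    | Sum.inl y => s o y g
    | Sum.inr _ => false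
  | none => fun _ _ => false

/-- the weights for all blocks -/
def aO {O : Type} (α : I → O → L → ℝ) : I ⊕ T → Option O → L → ℝ
  | Sum.inl b => fun o g => match o with
    | some o => α b o g
    | none => 0
  | Sum.inr _ => fun o _ => match o with
    | some _ => 0
    | none => 1

private theorem upW_iff (K : Finset (Σ e : E, Fin (m e + 1))) (b : I) {O : Type}
    (s : O → (Σ b, H b) → L → Bool) (o : O) (g : L) :
    (PW a alt).UpH (ev χ σ) K (Sum.inl b) (sO s (some o)) g ↔ UpW a alt χ σ K b (s o) g := by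
  unfold OW.UpH UpW
  constructor
  · rintro ⟨⟨y | t, c⟩, hε, h1, h2⟩
    · have h3 : y.1 = b := Sum.inl.inj h1
      subst h3
      exact ⟨y.2, c, hε, h2⟩
    · cases h1
  · rintro ⟨x, c, hε, h2⟩
    exact ⟨_, hε, rfl, h2⟩

private theorem upT_iff (K : Finset (Σ e : E, Fin (m e + 1))) (t : T) {O : Type}
    (s : O → (Σ b, H b) → L → Bool) (g : L) (h : Sum.inr (t, false) ∈ (PW a alt).Bk K) :
    (PW a alt).UpH (ev χ σ) K (Sum.inr t) (sO s none) g := by
  have key : ∀ ε : Ltr H T × Bool, (PW a alt).ec ε = Sum.inr (t, false) →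
      ε = (Sum.inr t, false) := by
    rintro ⟨y | t', c⟩ h1
    · cases h1
    · have h2 : (t', c) = (t, false) := Sum.inr.inj h1
      rw [Prod.mk.injEq] at h2
      rw [h2.1, h2.2]
  obtain ⟨κ, hκ, h1 | h1⟩ := (PW a alt).mem_bk.1 h
  · exact ⟨(Sum.inr t, false),
      (PW a alt).mem_endK.2 ⟨κ, hκ, Or.inl (key _ h1.symm).symm⟩, rfl, rfl⟩
  · exact ⟨(Sum.inr t, false),
      (PW a alt).mem_endK.2 ⟨κ, hκ, Or.inr (key _ h1.symm).symm⟩, rfl, rfl⟩

/-- along steps of a free letter with all signs `false` the power decreases -/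
private theorem ust_dec (S : Finset L) (t : T) (s : Ltr H T → L → Bool)
    (hs : ∀ x g, s x g = false) (u v : L × Qs H T (Sum.inr t))
    (h : Relation.TransGen ((PW a alt).USt fs (ev χ σ) S (Sum.inr t) s) u v) :
    Multiplicative.toAdd (ULift.down (α := Multiplicative ℤ) v.2) <
      Multiplicative.toAdd (ULift.down (α := Multiplicative ℤ) u.2) := by
  have key : ∀ u v : L × Qs H T (Sum.inr t),
      (PW a alt).USt fs (ev χ σ) S (Sum.inr t) s u v →
      Multiplicative.toAdd (ULift.down (α := Multiplicative ℤ) v.2) <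
        Multiplicative.toAdd (ULift.down (α := Multiplicative ℤ) u.2) := by
    rintro u v ⟨-, -, e, c, hcl, h1⟩
    rcases h1 with ⟨h2, -⟩ | ⟨-, h2⟩
    · rw [hs] at h2
      cases h2
    · have h3 : u.2 = v.2 * fs (Sum.inr t) ((PW a alt).a e c).1 := congrArg Prod.snd h2
      have h4 : fs (H := H) (Sum.inr t) ((PW a alt).a e c).1 = gz := by
        obtain ⟨y | t', hx⟩ : ∃ x, x = ((PW a alt).a e c).1 := ⟨_, rfl⟩
        · rw [← hx] at hcl
          cases hcl
        · rw [← hx] at hcl ⊢
          have h5 : t' = t := Sum.inr.inj hcl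
          change (if t' = t then gz else 1) = gz
          rw [if_pos h5]
      rw [h3, h4]
      change Multiplicative.toAdd (ULift.down (α := Multiplicative ℤ) v.2) <
        Multiplicative.toAdd (ULift.down (α := Multiplicative ℤ) v.2) + 1
      exact lt_add_one _
  induction h with
  | single h => exact key _ _ h
  | tail _ h ih => exact (key _ _ h).trans ih

theorem cvH_of [Fintype I] [Fintype T] [Fintype E] {S : Finset L} {O : Type} [Fintype O]
    {s : O → (Σ b, H b) → L → Bool} {w : (Σ e : E, Fin (m e + 1)) → L → ℝ} {α : I → O → L → ℝ}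
    {lam : Ltr H T → L → ℝ} (h : CrW a alt χ σ Finset.univ S s w α lam) :
    (PW a alt).CvH fs (ev χ σ) S (sO s) w (aO α) lam := by
  refine ⟨?_, ?_, ?_, ?_, ?_, ?_⟩
  · rintro (b | t) (_ | o) g
    · exact le_rfl
    · exact h.nonneg b o g
    · exact zero_le_one
    · exact le_rfl
  · rintro (b | t) g
    · rw [Fintype.sum_option]
      change 0 + ∑ o, α b o g ≤ 1
      rw [zero_add]
      exact h.le_one b g
    · rw [Fintype.sum_option]
      change (1 : ℝ) + ∑ _o : O, (0 : ℝ) ≤ 1
      simp
  · rintro b' o g x rfl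
    rcases x with y | t
    · rcases o with _ | o
      · rfl
      · exact h.inv y.1 o g y.2
    · rcases o with _ | o <;> rfl
  · rintro (b | t) o u hu
    · rcases o with _ | o
      · exact absurd rfl hu
      · intro h1
        refine h.pos b o u hu (Relation.TransGen.mono ?_ u u h1)
        rintro p q ⟨hp, hq, e, c, hcl, h2⟩
        refine ⟨hp, hq, e, Finset.mem_univ _, c, ?_⟩
        obtain ⟨y | t, hx⟩ : ∃ x, x = ((PW a alt).a e c).1 := ⟨_, rfl⟩
        · rw [← hx] at hcl h2
          have h3 : y.1 = b := Sum.inl.inj hcl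
          subst h3
          have h4 : fs (H := H) (T := T) (Sum.inl y.1) (Sum.inl y) = y.2 := fv_self y.1 y.2
          rw [h4] at h2
          exact ⟨y.2, hx.symm, h2⟩
        · rw [← hx] at hcl
          cases hcl
    · rcases o with _ | o
      · intro h1
        exact absurd (ust_dec a alt χ σ S t _ (fun _ _ => rfl) u u h1) (lt_irrefl _)
      · exact absurd rfl hu
  · intro e hh h1 h2
    exact h.wt e (Finset.mem_univ _) hh h1 h2
  · intro g hg K hK hfit
    refine (h.curv g hg K hK fun κ hκ => ⟨Finset.mem_univ _, hfit κ hκ⟩).trans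
      (add_le_add ?_ le_rfl)
    have h1 : (∑ j ∈ (PW a alt).Bk K, cval a alt χ σ K s α g j) =
        ∑ j, if j ∈ (PW a alt).Bk K then cval a alt χ σ K s α g j else 0 := by
      rw [← Finset.sum_filter]
      congr 1
      ext j
      simp
    rw [h1, Fintype.sum_sum_type, Fintype.sum_sum_type]
    refine add_le_add (Finset.sum_le_sum fun b _ => ?_) ?_
    · rw [Fintype.sum_option]
      have h2 : (∑ o, if (PW a alt).UpH (ev χ σ) K (Sum.inl b) (sO s (some o)) g
          then aO (T := T) α (Sum.inl b) (some o) g else 0) = cval a alt χ σ K s α g (Sum.inl b) := by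
        refine Finset.sum_congr rfl fun o _ => ?_
        by_cases h3 : UpW a alt χ σ K b (s o) g
        · rw [if_pos h3, if_pos ((upW_iff a alt χ σ K b s o g).2 h3)]
          rfl
        · rw [if_neg h3, if_neg fun h4 => h3 ((upW_iff a alt χ σ K b s o g).1 h4)]
      rw [h2]
      have h3 : 0 ≤ cval a alt χ σ K s α g (Sum.inl b) := by
        refine Finset.sum_nonneg fun o _ => ?_
        split_ifs
        · exact h.nonneg b o g
        · exact le_rfl
      have h4 : (if (PW a alt).UpH (ev χ σ) K (Sum.inl b) (sO s none) g then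
          aO (T := T) α (Sum.inl b) none g else 0) = 0 := by
        split_ifs
        · rfl
        · rfl
      rw [h4, zero_add]
      split_ifs
      · exact le_rfl
      · exact h3
    · rw [Fintype.sum_prod_type]
      refine Finset.sum_le_sum fun t _ => ?_
      rw [Fintype.sum_bool, Fintype.sum_option]
      have h2 : (if (Sum.inr (t, true) : I ⊕ (T × Bool)) ∈ (PW a alt).Bk K then
          cval a alt χ σ K s α g (Sum.inr (t, true)) else 0) = 0 := by
        split_ifs
        · rfl
        · rfl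
      have h3 : (∑ o, if (PW a alt).UpH (ev χ σ) K (Sum.inr t) (sO s (some o)) g
          then aO α (Sum.inr t) (some o) g else 0) = 0 := by
        refine Finset.sum_eq_zero fun o _ => ?_
        split_ifs
        · rfl
        · rfl
      rw [h2, h3, zero_add, add_zero]
      by_cases h4 : (Sum.inr (t, false) : I ⊕ (T × Bool)) ∈ (PW a alt).Bk K
      · rw [if_pos h4, if_pos (upT_iff a alt χ σ K t s g h4)]
        exact le_rfl
      · rw [if_neg h4]
        split_ifs
        · exact zero_le_one
        · exact le_rfl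

end

end Pool.Agent.WhtLI
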