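import Pool.Agent.Lib.WhtLI.Par

/-!
# SplB : the edges of the split graph, walks and polygons

(helper62, problem MP_cf50d6_gt; as `Lib/InjLI/SplB.lean`, `SplI.lean`, `SplP.lean` by helper18 and the seats of inj)
-/

set_option autoImplicit false

open scoped Classical

namespace Pool.Agent.WhtLI

open Pool.Agent.LIA

universe u v

namespace OW

variable {X : Type u} {I J E : Type} {W : Type*} (P : OW X I J E)

theorem mem_spl {Γ : LG W X} {p : W} {U : Finset J} {y z : Option W} {x : X} :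
    (y, x, z) ∈ (P.spl Γ p U).F ↔
      ∃ u v, (u, x, v) ∈ Γ.F ∧ y = mv p U u (P.ec (x, true)) ∧ z = mv p U v (P.ec (x, false)) := by
  unfold spl
  rw [Finset.mem_image]
  constructor
  · rintro ⟨⟨u, x', v⟩, h, he⟩
    simp only [Prod.mk.injEq] at he
    obtain ⟨h1, h2, h3⟩ := he
    subst h2
    exact ⟨u, v, h, h1.symm, h3.symm⟩
  · rintro ⟨u, v, h, rfl, rfl⟩
    exact ⟨(u, x, v), h, rfl⟩

theorem mem_spl_mv {Γ : LG W X} {p u v : W} {U : Finset J} {x : X} :
    (mv p U u (P.ec (x, true)), x, mv p U v (P.ec (x, false))) ∈ (P.spl Γ p U).F ↔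
      (u, x, v) ∈ Γ.F := by
  rw [mem_spl]
  constructor
  · rintro ⟨u', v', h, h1, h2⟩
    have e1 : u = u' := by
      rw [← pr_mv p U u (P.ec (x, true)), h1, pr_mv]
    have e2 : v = v' := by
      rw [← pr_mv p U v (P.ec (x, false)), h2, pr_mv]
    rw [e1, e2]
    exact h
  · intro h
    exact ⟨u, v, h, rfl, rfl⟩

theorem step_spl_mv {Γ : LG W X} {p u v : W} {U : Finset J} {l : X × Bool} :
    (P.spl Γ p U).Step (mv p U u (P.ec l)) l (mv p U v (P.ec (linv l))) ↔ Γ.Step u l v := by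
  obtain ⟨x, ε⟩ := l
  cases ε
  · unfold LG.Step
    rw [if_neg Bool.false_ne_true, if_neg Bool.false_ne_true]
    exact P.mem_spl_mv
  · unfold LG.Step
    rw [if_pos rfl, if_pos rfl]
    exact P.mem_spl_mv

theorem step_spl {Γ : LG W X} {p : W} {U : Finset J} {y z : Option W} {l : X × Bool} :
    (P.spl Γ p U).Step y l z ↔ Γ.Step (pr p y) l (pr p z) ∧
      y = mv p U (pr p y) (P.ec l) ∧ z = mv p U (pr p z) (P.ec (linv l)) := by
  constructor
  · intro h
    obtain ⟨x, ε⟩ := l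
    have key : ∀ y z : Option W, (y, x, z) ∈ (P.spl Γ p U).F →
        y = mv p U (pr p y) (P.ec (x, true)) ∧ z = mv p U (pr p z) (P.ec (x, false)) := by
      intro y z hyz
      obtain ⟨u, v, -, rfl, rfl⟩ := P.mem_spl.1 hyz
      rw [pr_mv, pr_mv]
      exact ⟨rfl, rfl⟩
    have h2 : y = mv p U (pr p y) (P.ec (x, ε)) ∧
        z = mv p U (pr p z) (P.ec (linv (x, ε))) := by
      cases ε
      · unfold LG.Step at h
        rw [if_neg Bool.false_ne_true] at h
        exact (key _ _ h).symm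
      · unfold LG.Step at h
        rw [if_pos rfl] at h
        exact key _ _ h
    refine ⟨?_, h2⟩
    rw [h2.1, h2.2] at h
    exact P.step_spl_mv.1 h
  · rintro ⟨h, h1, h2⟩
    rw [h1, h2]
    exact P.step_spl_mv.2 h

theorem card_spl (Γ : LG W X) (p : W) (U : Finset J) :
    (P.spl Γ p U).F.card = Γ.F.card := by
  unfold spl
  apply Finset.card_image_of_injOn
  rintro ⟨u, x, v⟩ _ ⟨u', x', v'⟩ _ h
  simp only [Prod.mk.injEq] at h
  obtain ⟨h1, h2, h3⟩ := h
  subst h2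
  have e1 : u = u' := by
    rw [← pr_mv p U u (P.ec (x, true)), h1, pr_mv]
  have e2 : v = v' := by
    rw [← pr_mv p U v (P.ec (x, false)), h3, pr_mv]
  rw [e1, e2]

/-! ## walks in one class -/

theorem walk_spl {Γ : LG W X} (p : W) (U : Finset J) {j : J} {L : List (X × Bool)}
    (hL : ∀ s ∈ L, P.ec s = j ∧ P.ec (linv s) = j) {u v : W} (h : Γ.Walk u L v) :
    (P.spl Γ p U).Walk (mv p U u j) L (mv p U v j) := by
  induction L generalizing u with
  | nil =>
    rw [LG.walk_nil] at h ⊢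
    rw [h]
  | cons l L ih =>
    obtain ⟨w, hw, hw'⟩ := h
    have hl := hL l List.mem_cons_self
    refine ⟨mv p U w j, ?_, ih (fun s hs => hL s (List.mem_cons_of_mem l hs)) hw'⟩
    have h1 := (P.step_spl_mv (p := p) (U := U)).2 hw
    rw [hl.1, hl.2] at h1
    exact h1

private theorem spl_vl (p : W) (U : Finset J) (c : Option W × X × Option W → ℚ) (u w : W)
    (l : X × Bool) : vl (P.pb p U c) u l w =
      vl c (mv p U u (P.ec l)) l (mv p U w (P.ec (linv l))) := by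
  obtain ⟨x, b⟩ := l
  unfold vl pb linv
  cases b
  · simp
  · simp

theorem trSum_spl {Γ : LG W X} (p : W) (U : Finset J) (c : Option W × X × Option W → ℚ) {j : J}
    {L : List (X × Bool)} (hL : ∀ s ∈ L, P.ec s = j ∧ P.ec (linv s) = j) {u v : W}
    (h : Γ.Walk u L v) :
    Γ.trSum (P.pb p U c) u L = (P.spl Γ p U).trSum c (mv p U u j) L := by
  induction L generalizing u with
  | nil => rw [LG.trSum_nil, LG.trSum_nil]
  | cons l L ih =>
    obtain ⟨w, hw, hw'⟩ := h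
    have hl := hL l List.mem_cons_self
    have h1 : (P.spl Γ p U).Step (mv p U u j) l (mv p U w j) := by
      have h2 := (P.step_spl_mv (p := p) (U := U)).2 hw
      rw [hl.1, hl.2] at h2
      exact h2
    rw [LG.trSum_cons _ _ _ hw, LG.trSum_cons _ _ _ h1,
      ih (fun s hs => hL s (List.mem_cons_of_mem l hs)) hw']
    have h3 := P.spl_vl p U c u w l
    rw [hl.1, hl.2] at h3
    exact congrArg (fun y => y + _) h3

theorem inner_spl {Γ : LG W X} {R : Set (FreeGroup X)} (hR : P.Mono R) {p : W} {U : Finset J}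
    {c : Option W × X × Option W → ℚ}
    (hc : ∀ ρ ∈ R, ∀ v, (P.spl Γ p U).Walk v ρ.toWord v → (P.spl Γ p U).trSum c v ρ.toWord = 0) :
    ∀ ρ ∈ R, ∀ v, Γ.Walk v ρ.toWord v → Γ.trSum (P.pb p U c) v ρ.toWord = 0 := by
  intro ρ hρ v hv
  rcases hR ρ hρ with h0 | ⟨j, hj⟩
  · rw [h0, LG.trSum_nil]
  · rw [P.trSum_spl p U c hj hv]
    exact hc ρ hρ _ (P.walk_spl p U hj hv)

theorem inner_eta {Γ : LG W X} {R : Set (FreeGroup X)} (hR : P.Mono R) (p : W) (U : Finset J)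
    (k : Option W → ℚ) : ∀ ρ ∈ R, ∀ v, Γ.Walk v ρ.toWord v →
      Γ.trSum (P.eta k p U) v ρ.toWord = 0 := by
  intro ρ hρ v hv
  have h1 : ∀ ρ ∈ R, ∀ v, (P.spl Γ p U).Walk v ρ.toWord v →
      (P.spl Γ p U).trSum (fun y : Option W × X × Option W => k y.2.2 - k y.1) v ρ.toWord = 0 := by
    intro ρ _ v hv
    rw [LG.trSum_coboundary (P.spl Γ p U) _ k Set.univ (fun _ _ _ _ _ => Set.mem_univ _)
      (fun _ _ _ _ _ => rfl) (Set.mem_univ v) hv, sub_self]
  exact P.inner_spl hR h1 ρ hρ v hv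

/-! ## polygons -/

private lemma splP_mv {p : W} {U : Finset J} {e : E} {q : Fin (P.m e + 1) → W}
    (hn : ∀ i, q i = p → ¬ P.Cr ⟨e, i⟩ U) (i : Fin (P.m e + 1)) :
    mv p U (q (i + 1)) (P.ec (P.a e (i + 1))) =
      mv p U (q (i + 1)) (P.ec (linv (P.a e i))) := by
  have h := P.mv_eq (κ := ⟨e, i + 1⟩) (hn (i + 1))
  rw [P.prv_succ] at h
  exact h.symm

theorem poly_lift {Γ : LG W X} {p : W} {U : Finset J} {e : E} {q : Fin (P.m e + 1) → W}
    (h : P.Poly Γ e q) (hn : ∀ i, q i = p → ¬ P.Cr ⟨e, i⟩ U) :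
    P.Poly (P.spl Γ p U) e fun i => mv p U (q i) (P.ec (P.a e i)) := by
  intro i
  have h1 := P.splP_mv hn i
  have h2 := (P.step_spl_mv (Γ := Γ) (p := p) (U := U)).2 (h i)
  simp only
  rw [h1]
  exact h2

theorem sum_lift {Γ : LG W X} {p : W} {U : Finset J} {e : E} {q : Fin (P.m e + 1) → W}
    (c : Option W × X × Option W → ℚ)
    (h : P.Poly Γ e q) (hn : ∀ i, q i = p → ¬ P.Cr ⟨e, i⟩ U) :
    ∑ i, vl (P.pb p U c) (q i) (P.a e i) (q (i + 1)) =
      ∑ i, vl c (mv p U (q i) (P.ec (P.a e i))) (P.a e i)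
        (mv p U (q (i + 1)) (P.ec (P.a e (i + 1)))) := by
  refine Finset.sum_congr rfl fun i _ => ?_
  rw [P.splP_mv hn i, P.spl_vl]

theorem poly_pr {Γ : LG W X} {p : W} {U : Finset J} {e : E} {q : Fin (P.m e + 1) → Option W}
    (h : P.Poly (P.spl Γ p U) e q) :
    (P.Poly Γ e fun i => pr p (q i)) ∧
      ∀ i, q i = mv p U (pr p (q i)) (P.ec (P.nxt ⟨e, i⟩)) ∧
        q i = mv p U (pr p (q i)) (P.ec (P.prv ⟨e, i⟩)) := by
  refine ⟨fun i => (P.step_spl.1 (h i)).1, fun i => ⟨(P.step_spl.1 (h i)).2.1, ?_⟩⟩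
  have h1 := (P.step_spl.1 (h (i - 1))).2.2
  rw [sub_add_cancel] at h1
  exact h1

/-- the projection of polygons -/
private def splPf (p : W) (σ : Σ e : E, Fin (P.m e + 1) → Option W) :
    Σ e : E, Fin (P.m e + 1) → W := ⟨σ.1, fun i => pr p (σ.2 i)⟩

private lemma splP_maps [Fintype E] [Fintype W] (Γ : LG W X) (p : W) (U : Finset J) :
    ∀ σ ∈ P.sq (P.spl Γ p U), P.splPf p σ ∈ P.sq Γ := by
  intro σ hσ
  have h1 : P.Poly (P.spl Γ p U) σ.1 σ.2 := (Finset.mem_filter.1 hσ).2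
  exact Finset.mem_filter.2 ⟨Finset.mem_univ _, (P.poly_pr h1).1⟩

private lemma splP_inj [Fintype E] [Fintype W] (Γ : LG W X) (p : W) (U : Finset J) :
    Set.InjOn (P.splPf p) (P.sq (P.spl Γ p U) : Set (Σ e : E, Fin (P.m e + 1) → Option W)) := by
  rintro ⟨e, q⟩ hσ ⟨e', q'⟩ hσ' h
  have h1 : P.Poly (P.spl Γ p U) e q := (Finset.mem_filter.1 (Finset.mem_coe.1 hσ)).2
  have h1' : P.Poly (P.spl Γ p U) e' q' := (Finset.mem_filter.1 (Finset.mem_coe.1 hσ')).2
  unfold splPf at h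
  simp only [Sigma.mk.injEq] at h
  obtain ⟨rfl, h2⟩ := h
  have h3 := eq_of_heq h2
  have h4 : q = q' := by
    funext i
    have h5 : pr p (q i) = pr p (q' i) := congrFun h3 i
    rw [((P.poly_pr h1).2 i).1, ((P.poly_pr h1').2 i).1, h5]
  rw [h4]

theorem sq_spl_le [Fintype E] [Fintype W] (Γ : LG W X) (p : W) (U : Finset J) :
    (P.sq (P.spl Γ p U)).card ≤ (P.sq Γ).card :=
  Finset.card_le_card_of_injOn (P.splPf p) (P.splP_maps Γ p U) (P.splP_inj Γ p U)

theorem sq_spl_lt [Fintype E] [Fintype W] {Γ : LG W X} {p : W} {U : Finset J} {κ : P.Cor}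
    (h1 : P.At Γ p κ) (h2 : P.Cr κ U) : (P.sq (P.spl Γ p U)).card < (P.sq Γ).card := by
  obtain ⟨q, hq, hqp⟩ := h1
  rw [← Finset.card_image_of_injOn (P.splP_inj Γ p U)]
  refine Finset.card_lt_card (Finset.ssubset_iff_of_subset ?_ |>.2 ?_)
  · intro τ hτ
    obtain ⟨σ, hσ, rfl⟩ := Finset.mem_image.1 hτ
    exact P.splP_maps Γ p U σ hσ
  · refine ⟨⟨κ.1, q⟩, Finset.mem_filter.2 ⟨Finset.mem_univ _, hq⟩, ?_⟩
    intro hτ
    obtain ⟨⟨e, q'⟩, hσ, h3⟩ := Finset.mem_image.1 hτ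
    have h4 : P.Poly (P.spl Γ p U) e q' := (Finset.mem_filter.1 hσ).2
    obtain ⟨e0, i⟩ := κ
    unfold splPf at h3
    simp only [Sigma.mk.injEq] at h3
    obtain ⟨rfl, h5⟩ := h3
    have h6 := eq_of_heq h5
    have h7 : pr p (q' i) = p := (congrFun h6 i).trans hqp
    obtain ⟨h8, h9⟩ := (P.poly_pr h4).2 i
    rw [h7] at h8 h9
    have h10 := P.mv_ne (p := p) h2
    rw [← h8, ← h9] at h10
    rcases h10 with ⟨h11, h12⟩ | ⟨h11, h12⟩
    · rw [h11] at h12
      exact Option.some_ne_none _ h12.symm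
    · rw [h11] at h12
      exact Option.some_ne_none _ h12

end OW

end Pool.Agent.WhtLI
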