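import Pool.Agent.Lib.WhtLI.ResW

/-!
# SubW : the curvature condition for finite subsystems

(helper62, problem MP_cf50d6_gt)
-/

set_option autoImplicit false

set_option linter.unusedSectionVars false

open scoped Classical

namespace Pool.Agent.WhtLI

open Pool.Agent.LIA

universe u v w'

section

variable {I T E : Type} {H : I → Type u} [∀ b, Group (H b)] {m : E → ℕ}
  (a : ∀ e, Fin (m e + 1) → Ltr H T × Bool)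
  (alt : ∀ e c, lec (linv (a e c)) ≠ lec (a e (c + 1)))
  (I₀ : Finset I) (T₀ : Finset T) (E₀ : Finset E)

/-- the letter belongs to the subsystem -/
def InL : Ltr H T → Prop
  | Sum.inl y => y.1 ∈ I₀
  | Sum.inr t => t ∈ T₀

/-- the letters of the subsystem -/
abbrev Lt0 : Type u := Ltr (fun b : ↥I₀ => H b.1) ↥T₀

/-- a letter as a letter of the subsystem -/
def rl : ∀ x : Ltr H T, InL I₀ T₀ x → Lt0 (H := H) I₀ T₀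
  | Sum.inl y, h => Sum.inl ⟨⟨y.1, h⟩, y.2⟩
  | Sum.inr t, h => Sum.inr ⟨t, h⟩

/-- a letter of the subsystem as a letter -/
def ul : Lt0 (H := H) I₀ T₀ → Ltr H T
  | Sum.inl y => Sum.inl ⟨y.1.1, y.2⟩
  | Sum.inr t => Sum.inr t.1

theorem ul_rl (x : Ltr H T) (h : InL I₀ T₀ x) : ul I₀ T₀ (rl I₀ T₀ x h) = x := by
  rcases x with y | t
  · rfl
  · rfl

theorem ul_inj : Function.Injective (ul (H := H) I₀ T₀) := by
  rintro (⟨⟨b, hb⟩, x⟩ | ⟨t, ht⟩) (⟨⟨b', hb'⟩, x'⟩ | ⟨t', ht'⟩) h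
  · have h1 : (⟨b, x⟩ : Σ b, H b) = ⟨b', x'⟩ := Sum.inl.inj h
    have h2 : b = b' := congrArg Sigma.fst h1
    subst h2
    have h3 : x = x' := eq_of_heq (Sigma.mk.inj h1).2
    subst h3
    rfl
  · cases h
  · cases h
  · have h1 : t = t' := Sum.inr.inj h
    subst h1
    rfl

/-- an end of the subsystem as an end -/
def uL (ε : Lt0 (H := H) I₀ T₀ × Bool) : Ltr H T × Bool := (ul I₀ T₀ ε.1, ε.2)

theorem uL_inj : Function.Injective (uL (H := H) I₀ T₀) := by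
  rintro ⟨x, c⟩ ⟨x', c'⟩ h
  have h1 : ul I₀ T₀ x = ul I₀ T₀ x' := congrArg Prod.fst h
  have h2 : c = c' := congrArg Prod.snd h
  rw [ul_inj I₀ T₀ h1, h2]

theorem uL_linv (ε : Lt0 (H := H) I₀ T₀ × Bool) : uL I₀ T₀ (linv ε) = linv (uL I₀ T₀ ε) := rfl

/-- a class of the subsystem as a class -/
def uJ : ↥I₀ ⊕ (↥T₀ × Bool) → I ⊕ (T × Bool)
  | Sum.inl b => Sum.inl b.1
  | Sum.inr j => Sum.inr (j.1.1, j.2)

theorem uJ_inj : Function.Injective (uJ I₀ T₀) := by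
  rintro (⟨b, hb⟩ | ⟨⟨t, ht⟩, c⟩) (⟨b', hb'⟩ | ⟨⟨t', ht'⟩, c'⟩) h
  · have h1 : b = b' := Sum.inl.inj h
    subst h1
    rfl
  · cases h
  · cases h
  · have h1 : (t, c) = (t', c') := Sum.inr.inj h
    rw [Prod.mk.injEq] at h1
    obtain ⟨h2, h3⟩ := h1
    subst h2
    subst h3
    rfl

theorem lec_uL (ε : Lt0 (H := H) I₀ T₀ × Bool) : lec (uL I₀ T₀ ε) = uJ I₀ T₀ (lec ε) := by
  obtain ⟨y | t, c⟩ := ε
  · rfl
  · rfl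

variable (h : ∀ e ∈ E₀, ∀ c, InL I₀ T₀ (a e c).1)

/-- the words of the subsystem -/
def rw0 (e : ↥E₀) (c : Fin (m e.1 + 1)) : Lt0 (H := H) I₀ T₀ × Bool :=
  (rl I₀ T₀ (a e.1 c).1 (h e.1 e.2 c), (a e.1 c).2)

theorem uL_rw0 (e : ↥E₀) (c : Fin (m e.1 + 1)) : uL I₀ T₀ (rw0 a I₀ T₀ E₀ h e c) = a e.1 c := by
  unfold uL rw0
  rw [ul_rl]

include alt in
theorem rw0_alt (e : ↥E₀) (c : Fin (m e.1 + 1)) :
    lec (linv (rw0 a I₀ T₀ E₀ h e c)) ≠ lec (rw0 a I₀ T₀ E₀ h e (c + 1)) := by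
  intro h1
  have h2 := congrArg (uJ I₀ T₀) h1
  rw [← lec_uL, ← lec_uL, uL_linv, uL_rw0, uL_rw0] at h2
  exact alt e.1 c h2

/-- the subsystem -/
abbrev P0 : OW (Lt0 (H := H) I₀ T₀) (↥I₀ ⊕ ↥T₀) (↥I₀ ⊕ (↥T₀ × Bool)) ↥E₀ :=
  PW (rw0 a I₀ T₀ E₀ h) (rw0_alt a alt I₀ T₀ E₀ h)

/-- the corners of the subsystem as corners -/
def io (κ : Σ e : ↥E₀, Fin (m e.1 + 1)) : Σ e : E, Fin (m e + 1) := ⟨κ.1.1, κ.2⟩

theorem io_inj : Function.Injective (io (m := m) E₀) := by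
  rintro ⟨⟨e, he⟩, c⟩ ⟨⟨e', he'⟩, c'⟩ hh
  have h1 : e = e' := congrArg Sigma.fst hh
  subst h1
  have h2 : c = c' := eq_of_heq (Sigma.mk.inj hh).2
  subst h2
  rfl

theorem nxt_io (κ : Σ e : ↥E₀, Fin (m e.1 + 1)) :
    (PW a alt).nxt (io E₀ κ) = uL I₀ T₀ ((P0 a alt I₀ T₀ E₀ h).nxt κ) :=
  (uL_rw0 a I₀ T₀ E₀ h κ.1 κ.2).symm

theorem prv_io (κ : Σ e : ↥E₀, Fin (m e.1 + 1)) :
    (PW a alt).prv (io E₀ κ) = uL I₀ T₀ ((P0 a alt I₀ T₀ E₀ h).prv κ) := by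
  change linv (a κ.1.1 (κ.2 - 1)) = uL I₀ T₀ (linv (rw0 a I₀ T₀ E₀ h κ.1 (κ.2 - 1)))
  rw [uL_linv, uL_rw0]

theorem ec_nxt_io (κ : Σ e : ↥E₀, Fin (m e.1 + 1)) :
    (PW a alt).ec ((PW a alt).nxt (io E₀ κ)) =
      uJ I₀ T₀ ((P0 a alt I₀ T₀ E₀ h).ec ((P0 a alt I₀ T₀ E₀ h).nxt κ)) := by
  rw [nxt_io a alt I₀ T₀ E₀ h]
  exact lec_uL I₀ T₀ _

theorem ec_prv_io (κ : Σ e : ↥E₀, Fin (m e.1 + 1)) :
    (PW a alt).ec ((PW a alt).prv (io E₀ κ)) =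
      uJ I₀ T₀ ((P0 a alt I₀ T₀ E₀ h).ec ((P0 a alt I₀ T₀ E₀ h).prv κ)) := by
  rw [prv_io a alt I₀ T₀ E₀ h]
  exact lec_uL I₀ T₀ _

theorem bk_map (K : Finset (Σ e : ↥E₀, Fin (m e.1 + 1))) :
    (PW a alt).Bk (K.map ⟨io E₀, io_inj E₀⟩) =
      ((P0 a alt I₀ T₀ E₀ h).Bk K).map ⟨uJ I₀ T₀, uJ_inj I₀ T₀⟩ := by
  ext j
  rw [OW.mem_bk, Finset.mem_map]
  constructor
  · rintro ⟨κ, hκ, h1⟩
    obtain ⟨κ₀, hκ₀, rfl⟩ := Finset.mem_map.1 hκ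
    change j = (PW a alt).ec ((PW a alt).nxt (io E₀ κ₀)) ∨
      j = (PW a alt).ec ((PW a alt).prv (io E₀ κ₀)) at h1
    rw [ec_nxt_io a alt I₀ T₀ E₀ h, ec_prv_io a alt I₀ T₀ E₀ h] at h1
    rcases h1 with h1 | h1
    · exact ⟨_, OW.mem_bk _ |>.2 ⟨κ₀, hκ₀, Or.inl rfl⟩, h1.symm⟩
    · exact ⟨_, OW.mem_bk _ |>.2 ⟨κ₀, hκ₀, Or.inr rfl⟩, h1.symm⟩
  · rintro ⟨j₀, hj, rfl⟩
    obtain ⟨κ₀, hκ₀, h1⟩ := (OW.mem_bk _).1 hj
    refine ⟨io E₀ κ₀, Finset.mem_map.2 ⟨κ₀, hκ₀, rfl⟩, ?_⟩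
    rw [ec_nxt_io a alt I₀ T₀ E₀ h, ec_prv_io a alt I₀ T₀ E₀ h]
    rcases h1 with h1 | h1
    · left
      rw [← h1]
      rfl
    · right
      rw [← h1]
      rfl

theorem endK_map (K : Finset (Σ e : ↥E₀, Fin (m e.1 + 1))) :
    (PW a alt).endK (K.map ⟨io E₀, io_inj E₀⟩) =
      ((P0 a alt I₀ T₀ E₀ h).endK K).map ⟨uL I₀ T₀, uL_inj I₀ T₀⟩ := by
  ext ε
  rw [OW.mem_endK, Finset.mem_map]
  constructor
  · rintro ⟨κ, hκ, h1⟩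
    obtain ⟨κ₀, hκ₀, rfl⟩ := Finset.mem_map.1 hκ
    change ε = (PW a alt).nxt (io E₀ κ₀) ∨ ε = (PW a alt).prv (io E₀ κ₀) at h1
    rw [nxt_io a alt I₀ T₀ E₀ h, prv_io a alt I₀ T₀ E₀ h] at h1
    rcases h1 with h1 | h1
    · exact ⟨_, OW.mem_endK _ |>.2 ⟨κ₀, hκ₀, Or.inl rfl⟩, h1.symm⟩
    · exact ⟨_, OW.mem_endK _ |>.2 ⟨κ₀, hκ₀, Or.inr rfl⟩, h1.symm⟩
  · rintro ⟨ε₀, hj, rfl⟩
    obtain ⟨κ₀, hκ₀, h1⟩ := (OW.mem_endK _).1 hj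
    refine ⟨io E₀ κ₀, Finset.mem_map.2 ⟨κ₀, hκ₀, rfl⟩, ?_⟩
    rw [nxt_io a alt I₀ T₀ E₀ h, prv_io a alt I₀ T₀ E₀ h]
    rcases h1 with h1 | h1
    · left
      rw [← h1]
      rfl
    · right
      rw [← h1]
      rfl

theorem cr_io (κ : Σ e : ↥E₀, Fin (m e.1 + 1)) (U : Finset (I ⊕ (T × Bool))) :
    (PW a alt).Cr (io E₀ κ) U ↔ (P0 a alt I₀ T₀ E₀ h).Cr κ
      (Finset.univ.filter fun j => uJ I₀ T₀ j ∈ U) := by
  unfold OW.Cr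
  rw [ec_nxt_io a alt I₀ T₀ E₀ h, ec_prv_io a alt I₀ T₀ E₀ h, Finset.mem_filter,
    Finset.mem_filter]
  simp only [Finset.mem_univ, true_and]

theorem twoC_map {K₀ : Finset (Σ e : ↥E₀, Fin (m e.1 + 1))}
    (hK₀ : (P0 a alt I₀ T₀ E₀ h).TwoC K₀) :
    (PW a alt).TwoC (K₀.map ⟨io E₀, io_inj E₀⟩) := by
  refine ⟨hK₀.1.map, fun U hU hUB => ?_⟩
  have e1 : ((K₀.map ⟨io E₀, io_inj E₀⟩).filter fun κ => (PW a alt).Cr κ U) =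
      (K₀.filter fun κ => (P0 a alt I₀ T₀ E₀ h).Cr κ
        (Finset.univ.filter fun j => uJ I₀ T₀ j ∈ U)).map ⟨io E₀, io_inj E₀⟩ := by
    rw [Finset.filter_map]
    congr 1
    apply Finset.filter_congr
    intro κ _
    exact cr_io a alt I₀ T₀ E₀ h κ U
  rw [e1, Finset.card_map]
  rw [bk_map a alt I₀ T₀ E₀ h] at hUB
  refine hK₀.2 _ ?_ ?_
  · obtain ⟨j, hj⟩ := hU
    obtain ⟨j₀, -, rfl⟩ := Finset.mem_map.1 (hUB.1 hj)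
    exact ⟨j₀, Finset.mem_filter.2 ⟨Finset.mem_univ _, hj⟩⟩
  · rw [Finset.ssubset_iff_subset_ne]
    constructor
    · intro j hj
      obtain ⟨-, hj1⟩ := Finset.mem_filter.1 hj
      obtain ⟨j₀, hj2, hj3⟩ := Finset.mem_map.1 (hUB.1 hj1)
      have hj4 : j₀ = j := uJ_inj I₀ T₀ hj3
      rw [← hj4]
      exact hj2
    · intro hne
      apply hUB.2
      intro j hj
      obtain ⟨j₀, hj2, rfl⟩ := Finset.mem_map.1 hj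
      rw [← hne] at hj2
      exact (Finset.mem_filter.1 hj2).2

variable {L : Type w'} [Group L] (χ : ∀ b, H b →* L) (σ : T → L)

theorem ev_ul (x : Lt0 (H := H) I₀ T₀) :
    ev (fun b : ↥I₀ => χ b.1) (fun t : ↥T₀ => σ t.1) x = ev χ σ (ul I₀ T₀ x) := by
  rcases x with y | t
  · rfl
  · rfl

theorem hl_uL (ε : Lt0 (H := H) I₀ T₀ × Bool) (g : L) :
    hl (ev (fun b : ↥I₀ => χ b.1) (fun t : ↥T₀ => σ t.1)) ε g = hl (ev χ σ) (uL I₀ T₀ ε) g := by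
  unfold hl
  rw [ev_ul]
  rfl

theorem upW_map (K : Finset (Σ e : ↥E₀, Fin (m e.1 + 1))) (b : ↥I₀)
    (s : (Σ b, H b) → L → Bool) (g : L) :
    UpW a alt χ σ (K.map ⟨io E₀, io_inj E₀⟩) b.1 s g ↔
      UpW (rw0 a I₀ T₀ E₀ h) (rw0_alt a alt I₀ T₀ E₀ h) (fun b : ↥I₀ => χ b.1)
        (fun t : ↥T₀ => σ t.1) K b (fun y g => s ⟨y.1.1, y.2⟩ g) g := by
  unfold UpW
  refine exists_congr fun x => exists_congr fun c => ?_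
  rw [endK_map a alt I₀ T₀ E₀ h, hl_uL]
  refine and_congr ?_ Iff.rfl
  rw [Finset.mem_map]
  constructor
  · rintro ⟨ε, hε, h1⟩
    have h2 : ε = (Sum.inl ⟨b, x⟩, c) := uL_inj I₀ T₀ h1
    rw [← h2]
    exact hε
  · intro h1
    exact ⟨_, h1, rfl⟩

theorem crW_res {S : Finset L} {O : Type} [Fintype O] {s : O → (Σ b, H b) → L → Bool}
    {w : (Σ e : E, Fin (m e + 1)) → L → ℝ} {α : I → O → L → ℝ} {lam : Ltr H T → L → ℝ}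
    (hCr : CrW a alt χ σ E₀ S s w α lam) :
    CrW (rw0 a I₀ T₀ E₀ h) (rw0_alt a alt I₀ T₀ E₀ h) (fun b : ↥I₀ => χ b.1)
      (fun t : ↥T₀ => σ t.1) Finset.univ S (fun o y g => s o ⟨y.1.1, y.2⟩ g)
      (fun κ g => w ⟨κ.1.1, κ.2⟩ g) (fun b o g => α b.1 o g)
      (fun x g => lam (ul I₀ T₀ x) g) := by
  have hHt : ∀ (e : ↥E₀) (hh : Fin (m e.1 + 1) → L),
      (P0 a alt I₀ T₀ E₀ h).Ht (ev (fun b : ↥I₀ => χ b.1) (fun t : ↥T₀ => σ t.1)) e hh →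
        (PW a alt).Ht (ev χ σ) e.1 hh := by
    intro e hh h1 c
    have h2 := h1 c
    rw [ev_ul] at h2
    have h3 := uL_rw0 a I₀ T₀ E₀ h e c
    have h4 : ul I₀ T₀ (rw0 a I₀ T₀ E₀ h e c).1 = (a e.1 c).1 := congrArg Prod.fst h3
    have h5 : (rw0 a I₀ T₀ E₀ h e c).2 = (a e.1 c).2 := congrArg Prod.snd h3
    change hh (c + 1) = hh c * sg (ev χ σ (ul I₀ T₀ (rw0 a I₀ T₀ E₀ h e c).1))
      (rw0 a I₀ T₀ E₀ h e c).2 at h2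
    rw [h4, h5] at h2
    exact h2
  refine ⟨fun b o g => hCr.nonneg b.1 o g, fun b g => hCr.le_one b.1 g,
    fun b o g x => hCr.inv b.1 o g x, ?_, ?_, ?_⟩
  · intro b o u hu h1
    refine hCr.pos b.1 o u hu (Relation.TransGen.mono ?_ u u h1)
    rintro p q ⟨hp, hq, e, -, c, x, hx, h2⟩
    refine ⟨hp, hq, e.1, e.2, c, x, ?_, h2⟩
    have h3 := congrArg Prod.fst (uL_rw0 a I₀ T₀ E₀ h e c)
    change ul I₀ T₀ (rw0 a I₀ T₀ E₀ h e c).1 = (a e.1 c).1 at h3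
    rw [← h3, hx]
    rfl
  · intro e _ hh h1 h2
    exact hCr.wt e.1 e.2 hh (hHt e hh h1) h2
  · intro g hg K₀ hK₀ hfit
    have h5 := hCr.curv g hg _ (twoC_map a alt I₀ T₀ E₀ h hK₀) (by
      intro κ hκ
      obtain ⟨κ₀, hκ₀, rfl⟩ := Finset.mem_map.1 hκ
      obtain ⟨-, hh, h1, h2, h3⟩ := hfit κ₀ hκ₀
      exact ⟨κ₀.1.2, hh, hHt κ₀.1 hh h1, h2, h3⟩)
    rw [Finset.sum_map, bk_map a alt I₀ T₀ E₀ h, Finset.sum_map, endK_map a alt I₀ T₀ E₀ h,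
      Finset.sum_map] at h5
    refine h5.trans (add_le_add (le_of_eq ?_) (le_of_eq ?_))
    · refine Finset.sum_congr rfl fun j _ => ?_
      rcases j with b | ⟨t, c⟩
      · change (∑ o, if UpW a alt χ σ (K₀.map ⟨io E₀, io_inj E₀⟩) b.1 (s o) g then α b.1 o g
          else 0) = ∑ o, if UpW (rw0 a I₀ T₀ E₀ h) (rw0_alt a alt I₀ T₀ E₀ h)
            (fun b : ↥I₀ => χ b.1) (fun t : ↥T₀ => σ t.1) K₀ b
              (fun y g => s o ⟨y.1.1, y.2⟩ g) g then α b.1 o g else 0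
        refine Finset.sum_congr rfl fun o _ => ?_
        rw [upW_map a alt I₀ T₀ E₀ h]
      · rfl
    · refine Finset.sum_congr rfl fun ε _ => ?_
      rw [hl_uL]
      rfl

end

end Pool.Agent.WhtLI
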