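import Pool.Agent.Lib.WhtLI.Wh

/-!
# Top : the top vertex of a good component

(helper62, problem MP_cf50d6_gt; as in `Lib/InjLI` by helper18 and the seats of inj)
-/

set_option autoImplicit false

open scoped Classical

namespace Pool.Agent.WhtLI

open Pool.Agent.LIA

universe u v

namespace OW

variable {X : Type u} {I J E : Type} {W : Type*} (P : OW X I J E) {L : Type*} [Group L]

theorem end_letter {K : Finset P.Cor} {ε : X × Bool} (h : ε ∈ P.endK K) :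
    ∃ e c, (P.a e c).1 = ε.1 := by
  obtain ⟨κ, -, h1⟩ := P.mem_endK.1 h
  rcases h1 with rfl | rfl
  · exact ⟨κ.1, κ.2, rfl⟩
  · exact ⟨κ.1, κ.2 - 1, rfl⟩

theorem exists_cond [Fintype J] [Fintype E] [Fintype W] {Γ : LG W X} (hC : Cn Γ)
    (hE : ∃ p, P.Ess Γ p) {b : I} {C : Finset W} (hCc : C ∈ (P.bg Γ b).comps) :
    ∃ p ∈ C, ¬ P.Bp Γ p b ∨ P.Ess Γ p := by
  by_contra hno
  push Not at hno
  obtain ⟨p0, hp0⟩ := LG.nonempty_of_mem_comps hCc
  have hcl : ∀ u x v, (u, x, v) ∈ Γ.F → (u ∈ (C : Set W) ↔ v ∈ (C : Set W)) := by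
    intro u x v h
    obtain ⟨hu, hv⟩ := P.bp_edge h
    constructor
    · intro huC
      have h1 := P.bp_unique (hno u huC).2 hu (hno u huC).1
      exact (LG.mem_of_edge hCc (P.mem_bg.2 ⟨h, h1⟩)).1 huC
    · intro hvC
      have h1 := P.bp_unique (hno v hvC).2 hv (hno v hvC).1
      exact (LG.mem_of_edge hCc (P.mem_bg.2 ⟨h, h1⟩)).2 hvC
  obtain ⟨pe, hpe⟩ := hE
  exact (hno pe (hC (C : Set W) ⟨p0, hp0⟩ hcl pe)).2 hpe

theorem exists_topH [Fintype J] [Fintype E] [Fintype W] {Q : I → Type v} [∀ b, Group (Q b)]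
    {f : ∀ b, X → Q b} {Γ : LG W X} (hC : Cn Γ) (hR : P.Rdc Γ) (hE : ∃ p, P.Ess Γ p) {η : X → L}
    {θ : W → L} (hθ : ∀ p x q, (p, x, q) ∈ Γ.F → θ q = θ p * η x) {S : Finset L}
    (hS : ∀ p, θ p ∈ S) {b : I} {s : X → L → Bool} {C : Finset W} (hCc : C ∈ (P.bg Γ b).comps)
    (hpot : (P.bg Γ b).PotIn (f b) C)
    (hP : ∀ u : L × Q b, (∃ p ∈ C, θ p = u.1) →
      ¬ Relation.TransGen (P.USt f η S b s) u u) :
    ∃ p ∈ C, (¬ P.Bp Γ p b ∨ P.Ess Γ p) ∧ ¬ P.UpH η (P.cor Γ p) b s (θ p) := by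
  by_cases hY : ∃ p ∈ C, ∃ ε ∈ P.endK (P.cor Γ p), P.cl ε.1 = b
  · obtain ⟨φ, hφ⟩ := hpot
    let Y : Set W := {p | p ∈ C ∧ ∃ ε ∈ P.endK (P.cor Γ p), P.cl ε.1 = b}
    let r : Y → Y → Prop := fun u v =>
      Relation.TransGen (P.USt f η S b s) (θ v, φ v) (θ u, φ u)
    have : IsTrans Y r := ⟨fun u v w h1 h2 => Relation.TransGen.trans h2 h1⟩
    have : Std.Irrefl r := ⟨fun u h => hP (θ u, φ u) ⟨u, u.2.1, rfl⟩ h⟩
    have hwf : WellFounded r := Finite.wellFounded_of_trans_of_irrefl r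
    obtain ⟨p0, hp0C, ε0, hε0, hb0⟩ := hY
    obtain ⟨⟨p, hp⟩, -, hmin⟩ := hwf.has_min Set.univ ⟨(⟨p0, hp0C, ε0, hε0, hb0⟩ : Y), trivial⟩
    obtain ⟨hpC, ε1, hε1, hb1⟩ := id hp
    refine ⟨p, hpC, Or.inr (P.end_ess hε1), ?_⟩
    rintro ⟨ε, hε, hcl, hsg⟩
    obtain ⟨v, hst, hε'⟩ := P.end_step hε
    obtain ⟨e, c, hec⟩ := P.end_letter hε
    have hedge : v ∈ C ∧ P.USt f η S b s (θ p, φ p) (θ v, φ v) := by
      unfold LG.Step at hst
      unfold hl at hsg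
      cases h2 : ε.2
      · rw [h2] at hst hsg
        simp only [Bool.false_eq_true, if_false] at hst hsg
        have h3 : (v, ε.1, p) ∈ (P.bg Γ b).F := P.mem_bg.2 ⟨hst, hcl⟩
        have hv : v ∈ C := (LG.mem_of_edge hCc h3).2 hpC
        have h4 := hθ _ _ _ hst
        rw [h4, mul_inv_cancel_right] at hsg
        refine ⟨hv, hS _, hS _, e, c, ?_, Or.inr ⟨?_, ?_⟩⟩
        · rw [hec]
          exact hcl
        · rw [hec]
          exact hsg
        · rw [hec, h4, hφ _ _ _ h3 hv]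
      · rw [h2] at hst hsg
        simp only [if_true] at hst hsg
        have h3 : (p, ε.1, v) ∈ (P.bg Γ b).F := P.mem_bg.2 ⟨hst, hcl⟩
        have hv : v ∈ C := (LG.mem_of_edge hCc h3).1 hpC
        have h4 := hθ _ _ _ hst
        refine ⟨hv, hS _, hS _, e, c, ?_, Or.inl ⟨?_, ?_⟩⟩
        · rw [hec]
          exact hcl
        · rw [hec]
          exact hsg
        · rw [hec, h4, hφ _ _ _ h3 hpC]
    exact hmin (⟨v, hedge.1, linv ε, hε', hcl⟩ : Y) trivial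
      (Relation.TransGen.single hedge.2)
  · push Not at hY
    obtain ⟨p, hp, hcond⟩ := P.exists_cond hC hE hCc
    rcases hcond with hpb | hess
    · refine ⟨p, hp, Or.inl hpb, ?_⟩
      rintro ⟨ε, hε, hcl, -⟩
      exact hY p hp ε hε hcl
    · by_cases hpb : P.Bp Γ p b
      · obtain ⟨ε, hε, hcl⟩ := P.bp_end hR hess hpb
        exact absurd hcl (hY p hp ε hε)
      · refine ⟨p, hp, Or.inl hpb, ?_⟩
        rintro ⟨ε, hε, hcl, -⟩
        exact hY p hp ε hε hcl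

end OW

end Pool.Agent.WhtLI
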