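import Pool.Agent.Lib.WhtLI.JpB

/-!
# Wh : heights of polygons, sum of the weights, sum of the transfers

(helper62, problem MP_cf50d6_gt)
-/

set_option autoImplicit false

open scoped Classical

namespace Pool.Agent.WhtLI

open Pool.Agent.LIA

universe u v

namespace OW

variable {X : Type u} {I J E : Type} {W : Type*} (P : OW X I J E) {L : Type*} [Group L]

theorem ht_poly {Γ : LG W X} {η : X → L} {θ : W → L}
    (hθ : ∀ p x q, (p, x, q) ∈ Γ.F → θ q = θ p * η x) {e : E} {q : Fin (P.m e + 1) → W}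
    (h : P.Poly Γ e q) : P.Ht η e fun c => θ (q c) := by
  intro c
  have h1 := h c
  unfold LG.Step at h1
  unfold sg
  split_ifs at h1 with h2
  · rw [if_pos h2]
    exact hθ _ _ _ h1
  · rw [if_neg h2]
    change θ (q (c + 1)) = θ (q c) * (η (P.a e c).1)⁻¹
    rw [hθ _ _ _ h1, mul_inv_cancel_right]

theorem at_fit {Γ : LG W X} {η : X → L} {θ : W → L}
    (hθ : ∀ p x q, (p, x, q) ∈ Γ.F → θ q = θ p * η x) {S : Finset L} (hS : ∀ p, θ p ∈ S) {p : W}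
    {κ : P.Cor} (h : P.At Γ p κ) : P.Fit η S κ (θ p) := by
  obtain ⟨q, hq, rfl⟩ := h
  exact ⟨fun c => θ (q c), P.ht_poly hθ hq, rfl, fun c => hS _⟩

theorem card_sq_leH [Fintype E] [Fintype W] (Γ : LG W X) {η : X → L} {θ : W → L}
    (hθ : ∀ p x q, (p, x, q) ∈ Γ.F → θ q = θ p * η x) {S : Finset L} (hS : ∀ p, θ p ∈ S)
    (w : P.Cor → L → ℝ)
    (hw : ∀ e h, P.Ht η e h → (∀ c, h c ∈ S) → 1 ≤ ∑ c, w ⟨e, c⟩ (h c)) :
    ((P.sq Γ).card : ℝ) ≤ ∑ p, ∑ κ ∈ P.cor Γ p, w κ (θ p) := by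
  have key : ∑ σ ∈ P.sq Γ, ∑ c, w ⟨σ.1, c⟩ (θ (σ.2 c)) = ∑ p, ∑ κ ∈ P.cor Γ p, w κ (θ p) := by
    rw [Finset.sum_sigma', Finset.sum_sigma']
    refine Finset.sum_bij
      (fun (x : Σ _ : (Σ e : E, Fin (P.m e + 1) → W), Fin (P.m _ + 1)) _ =>
        (⟨x.1.2 x.2, ⟨x.1.1, x.2⟩⟩ : Σ _ : W, P.Cor)) ?_ ?_ ?_ ?_
    · rintro ⟨⟨e, q⟩, c⟩ hx
      have h1 : P.Poly Γ e q := (Finset.mem_filter.1 (Finset.mem_sigma.1 hx).1).2
      exact Finset.mem_sigma.2 ⟨Finset.mem_univ _,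
        Finset.mem_filter.2 ⟨Finset.mem_univ _, q, h1, rfl⟩⟩
    · rintro ⟨⟨e, q⟩, c⟩ hx ⟨⟨e', q'⟩, c'⟩ hx' heq
      have h1 : P.Poly Γ e q := (Finset.mem_filter.1 (Finset.mem_sigma.1 hx).1).2
      have h1' : P.Poly Γ e' q' := (Finset.mem_filter.1 (Finset.mem_sigma.1 hx').1).2
      simp only [Sigma.mk.injEq, heq_eq_eq] at heq
      obtain ⟨h2, h3, h4⟩ := heq
      subst h3
      have h5 := eq_of_heq h4
      subst h5
      have h6 := P.poly_unique h1 h1' h2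
      subst h6
      rfl
    · rintro ⟨p, ⟨e, c⟩⟩ hy
      obtain ⟨q, h1, h2⟩ := (Finset.mem_filter.1 (Finset.mem_sigma.1 hy).2).2
      refine ⟨⟨⟨e, q⟩, c⟩, Finset.mem_sigma.2 ⟨Finset.mem_filter.2 ⟨Finset.mem_univ _, h1⟩,
        Finset.mem_univ _⟩, ?_⟩
      exact Sigma.ext h2 (heq_of_eq rfl)
    · rintro ⟨⟨e, q⟩, c⟩ _
      rfl
  rw [← key]
  calc ((P.sq Γ).card : ℝ) = ∑ _σ ∈ P.sq Γ, (1 : ℝ) := by simp
    _ ≤ _ := Finset.sum_le_sum fun σ hσ => by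
      have h1 : P.Poly Γ σ.1 σ.2 := (Finset.mem_filter.1 hσ).2
      exact hw σ.1 (fun c => θ (σ.2 c)) (P.ht_poly hθ h1) fun c => hS _

theorem hl_step {Γ : LG W X} {η : X → L} {θ : W → L}
    (hθ : ∀ p x q, (p, x, q) ∈ Γ.F → θ q = θ p * η x) {p v : W} {ε : X × Bool}
    (h : Γ.Step p ε v) : hl η (linv ε) (θ v) = hl η ε (θ p) := by
  obtain ⟨x, t⟩ := ε
  unfold LG.Step at h
  unfold hl linv
  cases t
  · have h1 := hθ _ _ _ (by simpa using h)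
    simp [h1]
  · have h1 := hθ _ _ _ (by simpa using h)
    simp [h1]

theorem sgn_not (ε : X × Bool) : sgn (linv ε) = - sgn ε := by
  unfold sgn linv
  cases ε.2 <;> simp

/-- the transfers cancel -/
theorem lam_sum [Fintype E] [Fintype W] (Γ : LG W X) {η : X → L} {θ : W → L}
    (hθ : ∀ p x q, (p, x, q) ∈ Γ.F → θ q = θ p * η x) (lam : X → L → ℝ) :
    ∑ p, ∑ ε ∈ P.endK (P.cor Γ p), sgn ε * lam ε.1 (hl η ε (θ p)) = 0 := by
  rw [Finset.sum_sigma']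
  have hex : ∀ a ∈ (Finset.univ.sigma fun p => P.endK (P.cor Γ p) : Finset (Σ _ : W, X × Bool)),
      ∃ v, Γ.Step a.1 a.2 v ∧ linv a.2 ∈ P.endK (P.cor Γ v) := fun a ha =>
    P.end_step (Finset.mem_sigma.1 ha).2
  choose g hg1 hg2 using hex
  refine Finset.sum_involution (fun a ha => ⟨g a ha, linv a.2⟩) ?_ ?_ ?_ ?_
  · intro a ha
    change sgn a.2 * lam a.2.1 (hl η a.2 (θ a.1)) +
      sgn (linv a.2) * lam a.2.1 (hl η (linv a.2) (θ (g a ha))) = 0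
    rw [sgn_not, hl_step hθ (hg1 a ha)]
    ring
  · intro a ha _ h
    have h1 := congrArg (fun y : (Σ _ : W, X × Bool) => y.2.2) h
    change (!a.2.2) = a.2.2 at h1
    cases h2 : a.2.2 <;> rw [h2] at h1 <;> cases h1
  · intro a ha
    exact Finset.mem_sigma.2 ⟨Finset.mem_univ _, hg2 a ha⟩
  · intro a ha
    have h1 := hg1 ⟨g a ha, linv a.2⟩ (Finset.mem_sigma.2 ⟨Finset.mem_univ _, hg2 a ha⟩)
    have h2 := step_linv (hg1 a ha)
    have h3 := LG.step_det h1 h2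
    refine Sigma.ext h3 (heq_of_eq ?_)
    exact linv_linv' a.2

end OW

end Pool.Agent.WhtLI
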